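import Mathlib
import Pool.Agent.Helper51.VB.Rr
import Pool.Agent.Helper51.VB.Kf
import Pool.Agent.Helper94.EW.Sections

/-!
# Isotrivial elliptic surfaces over a curve of arbitrary genus: definitions

Project IS. The elliptic curve `D` over the function field `L` of the base is the twist of a constant
elliptic curve `y ^ 2 = x ^ 3 + a x + b` by `f ^ (1 / m)`, `m = 2, 4, 6`. The theorem is the same as
`vb_main` of project VB. The fields `D.hal`, `D.hbe`, `D.hj` of `Ell` MUST NOT BE USED in this
project (they will be removed from the structure `Ell`).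
-/

set_option linter.unusedSectionVars false

namespace Pool.Agent.Helper51.IS

open VC VF Function Polynomial
open Pool.Agent.Helper51.VB
open Pool.Agent.Helper51.VN (Harm OnE)

universe u

/-- The elliptic curve `D` is a twist of a constant elliptic curve: `- 3 al = a f ^ (4 / m)`,
`- 2 be = b f ^ (6 / m)`, and `f` is a section of `m E`, if the degree of `E` is positive with a zero
at `e1`. -/
structure Twi {k L : Type u} [Field k] [Field L] [Algebra k L] (D : Ell k L) where
  a : k
  b : k
  hE : 4 * a ^ 3 + 27 * b ^ 2 ≠ 0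
  m : ℕ
  hm0 : m ≠ 0
  hm : Even m
  e4 : ℕ
  e6 : ℕ
  h4 : a = 0 ∨ m * e4 = 4
  h6 : b = 0 ∨ m * e6 = 6
  f : L
  hf0 : f ≠ 0
  hal : -3 * D.al = algebraMap k L a * f ^ e4
  hbe : -2 * D.be = algebraMap k L b * f ^ e6
  hf : ∀ P : Place k L, 0 ≤ ord P.ring f + m * D.E P
  he : 1 ≤ D.N → 0 < ord D.e1.ring f + m * D.E D.e1

section

variable {k L : Type u} [Field k] [Field L] [Algebra k L] {D : Ell k L} {n : ℕ}

/-- Valid parameters: nice places `T i`, the roots `v i` of the values of `f`, and points of the
constant curve. -/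
structure Twi.Valid (I : Twi D) (T : Fin n → Place k L) (v x y : Fin n → k) : Prop where
  nice : ∀ i, D.Nice (T i)
  root : ∀ i, v i ^ I.m = rs (T i) I.f
  curve : ∀ i, y i ^ 2 = x i ^ 3 + I.a * x i + I.b

/-- The functional in terms of the parameters. -/
def GT (Ψ : (Fin n → Place k L × k × k) → k) (T : Fin n → Place k L) (v x y : Fin n → k) : k :=
  Ψ (fun i => (T i, x i * v i ^ 2, y i * v i ^ 3))

end

section basic

variable {k L : Type u} [Field k] [IsAlgClosed k] [CharZero k] [Field L] [Algebra k L]
  {D : Ell k L} {n : ℕ}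

/-- The section `f` does not vanish at a nice place. -/
lemma Twi.ord_nice (I : Twi D) {P : Place k L} (hP : D.Nice P) : ord P.ring I.f = 0 := by
  have hcL : CharZero L := charZero_of_injective_algebraMap (algebraMap k L).injective
  obtain ⟨h1, h2, h3, -⟩ := hP
  have hal := I.hal
  have hbe := I.hbe
  have hL := D.hL
  have hj : algebraMap k L I.a ≠ 0 ∨ algebraMap k L I.b ≠ 0 := by
    by_contra hcon
    push Not at hcon
    have h4 := (_root_.map_eq_zero _).mp hcon.1
    have h5 := (_root_.map_eq_zero _).mp hcon.2
    apply I.hE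
    rw [h4, h5]
    ring
  -- the discriminant
  obtain ⟨e, he0, c, hc0, hdisc⟩ : ∃ e : ℕ, e ≠ 0 ∧ ∃ c : k, c ≠ 0 ∧
      D.be ^ 2 - D.al ^ 3 = algebraMap k L c * I.f ^ e := by
    have e1 : (D.be ^ 2 - D.al ^ 3) * 108 = 27 * (-2 * D.be) ^ 2 + 4 * (-3 * D.al) ^ 3 := by ring
    rw [hal, hbe] at e1
    have h108 : (108 : L) = algebraMap k L 108 := (map_ofNat _ _).symm
    have h27 : (27 : L) = algebraMap k L 27 := (map_ofNat _ _).symm
    have h4' : (4 : L) = algebraMap k L 4 := (map_ofNat _ _).symm
    rcases I.h4 with ha | ha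
    · have hb : I.b ≠ 0 := by
        rintro hb
        apply I.hE
        rw [ha, hb]; ring
      have h6 := I.h6.resolve_left hb
      refine ⟨2 * I.e6, ?_, 27 * I.b ^ 2 / 108, ?_, ?_⟩
      · intro h0
        have : I.e6 = 0 := by omega
        rw [this, mul_zero] at h6
        omega
      · exact div_ne_zero (mul_ne_zero (by norm_num) (pow_ne_zero 2 hb)) (by norm_num)
      · rw [ha, map_zero, zero_mul] at e1
        rw [map_div₀, map_mul, map_pow, ← h108, ← h27]
        have h0 : (108 : L) ≠ 0 := by norm_num
        field_simp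
        rw [e1]
        ring
    · rcases I.h6 with hb | hb
      · have ha' : I.a ≠ 0 := by
          rintro ha'
          apply I.hE
          rw [ha', hb]; ring
        refine ⟨3 * I.e4, ?_, 4 * I.a ^ 3 / 108, ?_, ?_⟩
        · intro h0
          have : I.e4 = 0 := by omega
          rw [this, mul_zero] at ha
          omega
        · exact div_ne_zero (mul_ne_zero (by norm_num) (pow_ne_zero 3 ha')) (by norm_num)
        · rw [hb, map_zero, zero_mul] at e1
          rw [map_div₀, map_mul, map_pow, ← h108, ← h4']
          have h0 : (108 : L) ≠ 0 := by norm_num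
          field_simp
          rw [e1]
          ring
      · have hee : 2 * I.e6 = 3 * I.e4 := by
          have h0 := I.hm0
          have : I.m * (2 * I.e6) = I.m * (3 * I.e4) := by
            have e2 : I.m * (2 * I.e6) = 2 * (I.m * I.e6) := by ring
            have e3 : I.m * (3 * I.e4) = 3 * (I.m * I.e4) := by ring
            rw [e2, e3, ha, hb]
          exact Nat.eq_of_mul_eq_mul_left (Nat.pos_of_ne_zero h0) this
        refine ⟨3 * I.e4, ?_, (27 * I.b ^ 2 + 4 * I.a ^ 3) / 108, ?_, ?_⟩
        · intro h0
          have : I.e4 = 0 := by omega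
          rw [this, mul_zero] at ha
          omega
        · refine div_ne_zero ?_ (by norm_num)
          have := I.hE
          rwa [add_comm] at this
        · rw [map_div₀, map_add, map_mul, map_mul, map_pow, map_pow, ← h108, ← h4', ← h27]
          have h0 : (108 : L) ≠ 0 := by norm_num
          field_simp
          rw [e1]
          have e5 : (I.f ^ I.e6) ^ 2 = I.f ^ (3 * I.e4) := by
            rw [← pow_mul, mul_comm I.e6, hee]
          have e6 : (I.f ^ I.e4) ^ 3 = I.f ^ (3 * I.e4) := by
            rw [← pow_mul, mul_comm I.e4]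
          rw [mul_pow, mul_pow, e5, e6]
          ring
  rw [hdisc, ord_mul hL P ((_root_.map_ne_zero _).mpr hc0) (pow_ne_zero _ I.hf0),
    FF.ord_pow hL P I.hf0] at h3
  have h5 : ord P.ring (algebraMap k L c) = 0 := FF.ord_algebraMap hL P hc0
  rw [h5, zero_add] at h3
  rcases mul_eq_zero.mp h3 with h6 | h6
  · exact absurd (by exact_mod_cast h6) he0
  · exact h6

end basic

end Pool.Agent.Helper51.IS
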