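import Mathlib
import Pool.Agent.Helper51.IS.Defs
import Pool.Agent.Helper51.EW.Field
import Pool.Agent.Helper94.EW.Pencil
import Pool.Agent.Helper51.VB.Pen
import Pool.Agent.Helper51.VB.Pmap

/-!
# Block IS-FLD: the function field

Template: `EW.exists_field` in `Helper51/EW/Field.lean`. `exists_param κ hm0` (Helper94/EW/Pencil.lean) gives
`ρ, ω, w₀` with `1 + κ ρ = ω ^ m`, `ρ (w₀) = 0`, `ω (w₀) = 1` and `ρ` surjective on `k` (so not constant).
`exists_pen` (VB/Pen.lean; `n ≠ 0`) gives `K₀, s, t` with `Pen D T q s t`. Adjoin to `K₀` a root `w` of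
`ρ (W) = s` (a finite extension in which a polynomial has a root: `VF.exists_splits` / `exists_roots`), it is
transcendental over `k` since `s` is; then `m`-th roots `v i` of `(t i).l ^ m * ev f` and `h i` of `H i (s)`
(`exists_roots` twice). `Pen.map` (VB/Pmap.lean) for the field extensions. `h i ≠ 0` because `H i ≠ 0` and `s` is
transcendental. Finally `(ω (w) ∏ v i) ^ m = (1 + κ s) ∏ f (T i) ∏ (1 + rs (r j) q s) = (∏ v₀ i) ^ m ∏ H i (s)`
by the hypotheses `hN` and `hH`, so the quotient of `ω (w) ∏ v i` and `∏ v₀ i ∏ h i` is an `m`-th root of unity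
in `k` (`EW.exists_root_of_unity`), and can be absorbed in `h 0` as in the template.
-/

set_option linter.unusedSectionVars false

namespace Pool.Agent.Helper51.IS

open VC VF Function Polynomial
open Pool.Agent.Helper51.VB
open Pool.Agent.Helper51.VN (Harm OnE)

universe u

variable {k L : Type u} [Field k] [IsAlgClosed k] [CharZero k] [Field L] [Algebra k L]
  {D : Ell k L} [D.Pos] {n : ℕ} {T : Fin n → Place k L}


private lemma ev_map_77 {K K' : Type u} [Field K] [Algebra k K] [Field K'] [Algebra k K']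
    (φ : K →ₐ[k] K') (p : BP k L K) (f : L) : (p.map φ).ev f = φ (p.ev f) := by
  cases p with
  | cst P => exact (φ.commutes _).symm
  | emb ι => rfl

private lemma lev_map_77 {K K' : Type u} [Field K] [Algebra k K] [Field K'] [Algebra k K']
    (φ : K →ₐ[k] K') (t : Bpt k L K) (m : ℕ) (f : L) :
    (t.map φ).l ^ m * (t.map φ).p.ev f = φ (t.l ^ m * t.p.ev f) := by
  rw [map_mul, map_pow, ← ev_map_77]
  rfl

theorem exists_fld (I : Twi D) (hn : n ≠ 0) (hT : ∀ i, D.Nice (T i)) (hinj : Injective T) {q : L}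
    (hq : InRR D T q) (κ : k) (H : Fin n → k[X]) (hH0 : ∀ i, (H i).eval 0 = 1) {d : ℕ}
    (r : Fin d → Place k L)
    (hH : ∏ i, H i = (1 + C κ * X) * ∏ j, (1 + C (rs (r j) q) * X))
    (hN : ∀ (K : Type u) [Field K] [Algebra k K] (s : K) (t : Fin n → Bpt k L K),
      Pen D T q s t →
      ∏ i, ((t i).l ^ I.m * (t i).p.ev I.f) = algebraMap k K (∏ i, rs (T i) I.f) *
        ∏ j, (1 + algebraMap k K (rs (r j) q) * s))
    (v₀ : Fin n → k) (hv₀ : ∀ i, v₀ i ^ I.m = rs (T i) I.f) (hv0 : ∀ i, v₀ i ≠ 0) :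
    ∃ (K : Type u) (_ : Field K) (_ : Algebra k K) (w s : K) (t : Fin n → Bpt k L K)
      (v h : Fin n → K) (ρ ω : k[X]) (w₀ : k),
      IsFunctionField k K ∧ Transcendental k w ∧ Transcendental k s ∧ Pen D T q s t ∧
      aeval w ρ = s ∧ ρ.eval w₀ = 0 ∧ ω.eval w₀ = 1 ∧ ρ.natDegree ≠ 0 ∧
      (∀ i, v i ^ I.m = (t i).l ^ I.m * (t i).p.ev I.f) ∧
      (∀ i, h i ^ I.m = aeval s (H i)) ∧ (∀ i, h i ≠ 0) ∧
      aeval w ω * ∏ i, v i = algebraMap k K (∏ i, v₀ i) * ∏ i, h i := by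
  classical
  obtain ⟨ρ, ω, w₀, hρω, hρ0, hω0, hρs⟩ := Helper94.EW.exists_param κ I.hm0
  have hρd : ρ.natDegree ≠ 0 := by
    intro h0
    obtain ⟨a, ha⟩ := hρs 0
    obtain ⟨b, hb⟩ := hρs 1
    rw [eq_C_of_natDegree_eq_zero h0, eval_C] at ha hb
    rw [ha] at hb
    exact zero_ne_one hb
  obtain ⟨K₀, _, _, s₀, t₀, hK₀, hs₀, hpen₀⟩ := exists_pen hn hinj hT hq
  set P : K₀[X] := ρ.map (algebraMap k K₀) - C s₀ with hP
  obtain ⟨K₁, _, _, _, _, hK₁, hsp⟩ := exists_splits hK₀ P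
  have hPd : P.natDegree ≠ 0 := by
    rw [hP, natDegree_sub_C, natDegree_map]
    exact hρd
  obtain ⟨w₁, hw₁⟩ := hsp.exists_eval_eq_zero (by
    rw [Polynomial.degree_map]
    intro h0
    exact hPd (natDegree_eq_of_degree_eq_some h0))
  have hw₁' : aeval w₁ ρ = algebraMap K₀ K₁ s₀ := by
    rw [eval_map_algebraMap, hP, map_sub, aeval_C, sub_eq_zero, aeval_map_algebraMap] at hw₁
    exact hw₁
  set φ₁ : K₀ →ₐ[k] K₁ := IsScalarTower.toAlgHom k K₀ K₁ with hφ₁
  have hpen₁ := hpen₀.map hK₀ hK₁ φ₁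
  obtain ⟨K₂, _, _, _, _, v₂, hK₂, hv₂⟩ := exists_roots hK₁ I.hm0
    (fun i => ((t₀ i).map φ₁).l ^ I.m * ((t₀ i).map φ₁).p.ev I.f)
  set φ₂ : K₁ →ₐ[k] K₂ := IsScalarTower.toAlgHom k K₁ K₂ with hφ₂
  have hpen₂ := hpen₁.map hK₁ hK₂ φ₂
  obtain ⟨K, _, _, _, _, h, hK, hh⟩ := exists_roots hK₂ I.hm0
    (fun i => aeval (φ₂ (φ₁ s₀)) (H i))
  set φ₃ : K₂ →ₐ[k] K := IsScalarTower.toAlgHom k K₂ K with hφ₃
  have hpen₃ := hpen₂.map hK₂ hK φ₃
  have hφ₃' : ∀ x, algebraMap K₂ K x = φ₃ x := fun _ => rfl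
  have hφ₂' : ∀ x, algebraMap K₁ K₂ x = φ₂ x := fun _ => rfl
  have hφ₁' : ∀ x, algebraMap K₀ K₁ x = φ₁ x := fun _ => rfl
  set s : K := φ₃ (φ₂ (φ₁ s₀)) with hs
  set w : K := φ₃ (φ₂ w₁) with hw
  set t : Fin n → Bpt k L K := fun i => (((t₀ i).map φ₁).map φ₂).map φ₃ with ht
  have hst : Transcendental k s :=
    (transcendental_algebraMap_iff (algebraMap K₂ K).injective).mpr
      ((transcendental_algebraMap_iff (algebraMap K₁ K₂).injective).mpr
        ((transcendental_algebraMap_iff (algebraMap K₀ K₁).injective).mpr hs₀))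
  have hws : aeval w ρ = s := by
    rw [hw, aeval_algHom_apply, aeval_algHom_apply, hw₁', hφ₁']
  have hwt : Transcendental k w := by
    have h1 : Transcendental k (aeval w ρ) := by
      rw [hws]
      exact hst
    exact (transcendental_aeval_iff.mp h1).1
  have hv2 : ∀ i, φ₃ (v₂ i) ^ I.m = (t i).l ^ I.m * (t i).p.ev I.f := by
    intro i
    rw [← map_pow, hv₂, hφ₂', ← lev_map_77, ← lev_map_77]
  have hh2 : ∀ i, h i ^ I.m = aeval s (H i) := by
    intro i
    rw [hh, hφ₃', ← aeval_algHom_apply]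
  have hh0 : ∀ i, h i ≠ 0 := by
    intro i h0
    have h1 := hh2 i
    rw [h0, zero_pow I.hm0] at h1
    have h2 : H i ≠ 0 := by
      intro h2
      have := hH0 i
      rw [h2, eval_zero] at this
      exact zero_ne_one this
    exact aeval_ne_zero hst h2 h1.symm
  have hz0 : ∏ i, v₀ i ≠ 0 := Finset.prod_ne_zero_iff.mpr fun i _ => hv0 i
  have hpr0 : (algebraMap k K (∏ i, v₀ i) * ∏ i, h i) ≠ 0 :=
    mul_ne_zero ((_root_.map_ne_zero _).mpr hz0) (Finset.prod_ne_zero_iff.mpr fun i _ => hh0 i)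
  have hω : aeval w ω ^ I.m = 1 + algebraMap k K κ * s := by
    rw [← map_pow, ← hρω, map_add, map_one, map_mul, aeval_C, hws]
  have hHs : ∏ i, aeval s (H i) = (1 + algebraMap k K κ * s) *
      ∏ j, (1 + algebraMap k K (rs (r j) q) * s) := by
    rw [← map_prod, hH, map_mul, map_add, map_one, map_mul, aeval_C, aeval_X, map_prod]
    simp only [map_add, map_one, map_mul, aeval_C, aeval_X]
  have hzeta : (aeval w ω * ∏ i, φ₃ (v₂ i)) ^ I.m =
      (algebraMap k K (∏ i, v₀ i) * ∏ i, h i) ^ I.m := by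
    rw [mul_pow, mul_pow, ← Finset.prod_pow, ← Finset.prod_pow, Finset.prod_congr rfl
      fun i _ => hv2 i, Finset.prod_congr rfl fun i _ => hh2 i, hN K s t hpen₃, hHs, hω,
      ← map_pow, ← Finset.prod_pow, Finset.prod_congr rfl fun i _ => hv₀ i]
    ring
  obtain ⟨c, hc, hc'⟩ := EW.exists_root_of_unity (k := k) I.hm0
    (z := (aeval w ω * ∏ i, φ₃ (v₂ i)) / (algebraMap k K (∏ i, v₀ i) * ∏ i, h i))
    (by rw [div_pow, hzeta, div_self (pow_ne_zero _ hpr0)])
  have hc0 : c ≠ 0 := by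
    rintro rfl
    rw [zero_pow I.hm0] at hc
    exact zero_ne_one hc
  have hcK : algebraMap k K c ≠ 0 := (_root_.map_ne_zero _).mpr hc0
  set j₀ : Fin n := ⟨0, Nat.pos_of_ne_zero hn⟩ with hj₀
  refine ⟨K, inferInstance, inferInstance, w, s, t, fun i => φ₃ (v₂ i), update h j₀
    (algebraMap k K c * h j₀), ρ, ω, w₀, hK, hwt, hst, hpen₃, hws, hρ0, hω0, hρd, hv2, ?_, ?_, ?_⟩
  · intro i
    by_cases hi : i = j₀
    · subst hi
      rw [update_self, mul_pow, ← map_pow, hc, map_one, one_mul, hh2]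
    · rw [update_of_ne hi, hh2]
  · intro i
    by_cases hi : i = j₀
    · subst hi
      rw [update_self]
      exact mul_ne_zero hcK (hh0 _)
    · rw [update_of_ne hi]
      exact hh0 i
  · have h1 : ∏ i, update h j₀ (algebraMap k K c * h j₀) i = algebraMap k K c * ∏ i, h i := by
      rw [Finset.prod_update_of_mem (Finset.mem_univ _), mul_assoc]
      congr 1
      rw [← Finset.mul_prod_erase Finset.univ h (Finset.mem_univ j₀)]
      congr 1
      apply Finset.prod_congr _ (fun _ _ => rfl)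
      ext i
      simp
    rw [h1, hc']
    have e5 : algebraMap k K (∏ i, v₀ i) * ((aeval w ω * ∏ i, φ₃ (v₂ i)) /
        (algebraMap k K (∏ i, v₀ i) * ∏ i, h i) * ∏ i, h i) =
        (aeval w ω * ∏ i, φ₃ (v₂ i)) / (algebraMap k K (∏ i, v₀ i) * ∏ i, h i) *
        (algebraMap k K (∏ i, v₀ i) * ∏ i, h i) := by ring
    rw [e5, div_mul_cancel₀ _ hpr0]

end Pool.Agent.Helper51.IS
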