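import Mathlib
import Pool.Agent.Helper51.IS.Defs
import Pool.Agent.Helper70.VP.Pencil

/-!
# Block IS-NRM: the norm of the section `f`

The divisor `div f + m E` is effective (`I.hf`) of degree `m N` (`deg (div f) = 0`:
`VP.degree_zero` / `FF.deg_dv`; `D.deg`), and `e1` occurs in it (`I.he`). Let `r` enumerate its points with
multiplicities, with one `e1` removed: `d = m N - 1`. Then, for `q` in `InRR D T q` (so `q` vanishes at `e1`:
`rs D.e1 q = 0`, also for `q = 0`) the polynomial `nm D I.hf0 I.m T (fun P => rs P q)` of the structure `Pen` is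
`C (∏ i, rs (T i) I.f) * ∏ j, (1 + X * C (rs (r j) q))` (one factor `1 + X * 0 = 1` for `e1` is dropped), and
`Pen.prod` for `G = I.f` (`ord (T i) f = 0`: `I.ord_nice`) gives the formula. The points `r j` are zeros of
the section `f`, so they are not nice (`I.ord_nice` and `D.nice`: at a nice place `ord f = 0` and `E P = 0`).
-/

set_option linter.unusedSectionVars false

namespace Pool.Agent.Helper51.IS

open VC VF Function Polynomial
open Pool.Agent.Helper51.VB
open Pool.Agent.Helper51.VN (Harm OnE)

universe u

variable {k L : Type u} [Field k] [IsAlgClosed k] [CharZero k] [Field L] [Algebra k L]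
  {D : Ell k L} [D.Pos]

/-- a function with the properties `InRR` has the value `0` at `e1` -/
theorem rs_e1 {n : ℕ} {T : Fin n → Place k L} (hT : ∀ i, D.Nice (T i)) {q : L}
    (hq : InRR D T q) : rs D.e1 q = 0 := by
  rcases hq with h0 | h0
  · rw [h0]
    exact rs_eq isRes_zero
  · rcases eq_or_ne q 0 with hq0 | hq0
    · rw [hq0]
      exact rs_eq isRes_zero
    have h1 := h0 D.e1
    have h2 : ¬ ∃ i, T i = D.e1 := by
      rintro ⟨i, hi⟩
      have h3 := hT i
      rw [hi] at h3
      exact D.bad h3
    rw [if_pos rfl, if_neg h2, add_zero] at h1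
    apply rs_eq
    have h3 : q ∈ D.e1.ring.nonunits := (ord_pos_iff D.hL _ hq0).mp (by omega)
    unfold IsRes
    rw [map_zero, sub_zero]
    exact h3

theorem exists_zeros (I : Twi D) : ∃ (d : ℕ) (r : Fin d → Place k L), d < I.m * D.N ∧
    (∀ j, ¬ D.Nice (r j)) ∧
    ∀ (n : ℕ) (T : Fin n → Place k L) (_ : ∀ i, D.Nice (T i)) (_ : Injective T) (q : L)
      (_ : InRR D T q) (K : Type u) [Field K] [Algebra k K] (s : K) (t : Fin n → Bpt k L K),
      Pen D T q s t →
      ∏ i, ((t i).l ^ I.m * (t i).p.ev I.f) = algebraMap k K (∏ i, rs (T i) I.f) *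
        ∏ j, (1 + algebraMap k K (rs (r j) q) * s) := by
  classical
  set S : Finset (Place k L) := (finite_support_ord D.hL I.hf0).toFinset ∪ D.E.support with hS
  let mu : Place k L → ℕ := fun P => (ord P.ring I.f + I.m * D.E P).toNat
  have hmu : ∀ P, (mu P : ℤ) = ord P.ring I.f + I.m * D.E P := fun P =>
    Int.toNat_of_nonneg (I.hf P)
  have hsum : ∑ P ∈ S, mu P = I.m * D.N := by
    have h : ((∑ P ∈ S, mu P : ℕ) : ℤ) = I.m * D.N := by
      rw [Nat.cast_sum, Finset.sum_congr rfl (fun P _ => hmu P), Finset.sum_add_distrib,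
        ← Finset.mul_sum]
      have h1 : ∑ P ∈ S, ord P.ring I.f = 0 := by
        rw [← VP.degree_zero D.hL I.hf0]
        symm
        refine Finset.sum_subset Finset.subset_union_left fun P _ hP => ?_
        by_contra h
        exact hP ((Set.Finite.mem_toFinset _).mpr h)
      have h2 : ∑ P ∈ S, D.E P = D.N := by
        rw [← D.deg, Finsupp.sum]
        symm
        exact Finset.sum_subset Finset.subset_union_right fun P _ hP =>
          Finsupp.notMem_support_iff.mp hP
      rw [h1, h2, zero_add]
    exact_mod_cast h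
  let M : Multiset (Place k L) := ∑ P ∈ S, Multiset.replicate (mu P) P
  have hM : Multiset.card M = I.m * D.N := by
    rw [← hsum]
    show Multiset.card (∑ P ∈ S, Multiset.replicate (mu P) P) = _
    rw [Multiset.card_sum]
    exact Finset.sum_congr rfl fun P _ => Multiset.card_replicate _ _
  have hmem : ∀ P, P ∈ M → mu P ≠ 0 := by
    intro P hP
    obtain ⟨Q, hQ, h⟩ := Multiset.mem_sum.mp hP
    rw [Multiset.mem_replicate] at h
    rw [h.2]
    exact h.1
  have he1 : D.e1 ∈ M := by
    refine Multiset.mem_sum.mpr ⟨D.e1, ?_, ?_⟩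
    · rw [hS, Finset.mem_union, Set.Finite.mem_toFinset, Finsupp.mem_support_iff]
      by_contra hcon
      push Not at hcon
      have h1 : ord D.e1.ring I.f = 0 := by
        by_contra h
        exact hcon.1 h
      have h2 := I.he D.hN
      rw [h1, hcon.2] at h2
      simp at h2
    · rw [Multiset.mem_replicate]
      refine ⟨?_, rfl⟩
      intro h
      have h1 := hmu D.e1
      rw [h] at h1
      have h2 := I.he D.hN
      rw [← h1] at h2
      simp at h2
  have hnn : ∀ P, mu P ≠ 0 → ¬ D.Nice P := by
    intro P hP hN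
    apply hP
    have h1 := hmu P
    rw [I.ord_nice hN, D.nice P hN.1 hN.2.1 hN.2.2.1 hN.2.2.2] at h1
    have h2 : (mu P : ℤ) = 0 := by
      rw [h1]
      ring
    exact_mod_cast h2
  let l : List (Place k L) := (M.erase D.e1).toList
  have hl : (l : Multiset (Place k L)) = M.erase D.e1 := Multiset.coe_toList _
  refine ⟨l.length, l.get, ?_, ?_, ?_⟩
  · have h1 : l.length = Multiset.card (M.erase D.e1) := by
      rw [← hl]
      rfl
    rw [h1, ← hM]
    exact Multiset.card_erase_lt_of_mem he1
  · intro j
    apply hnn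
    apply hmem
    have h1 : l.get j ∈ (l : Multiset (Place k L)) := List.get_mem l j
    rw [hl] at h1
    exact Multiset.mem_of_mem_erase h1
  · intro n T hT hTi q hq K _ _ s t hP
    have h1 := hP.prod I.f I.hf0 I.m I.hf (fun i => I.ord_nice (hT i))
    rw [h1]
    unfold nm
    rw [map_mul, aeval_C, Algebra.algebraMap_self_apply]
    congr 1
    rw [map_prod]
    let g : Place k L → K := fun P => 1 + algebraMap k K (rs P q) * s
    have h2 : ∏ P ∈ S, (aeval s) ((1 + X * C (rs P q)) ^ (ord P.ring I.f + I.m * D.E P).toNat) =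
        (M.map g).prod := by
      have h3 : (M.map g).prod = ∏ P ∈ S, g P ^ mu P := by
        show (Multiset.mapAddMonoidHom g (∑ P ∈ S, Multiset.replicate (mu P) P)).prod = _
        rw [map_sum, Multiset.prod_sum]
        refine Finset.prod_congr rfl fun P _ => ?_
        show (Multiset.map g (Multiset.replicate (mu P) P)).prod = _
        rw [Multiset.map_replicate, Multiset.prod_replicate]
      rw [h3]
      refine Finset.prod_congr rfl fun P _ => ?_
      rw [map_pow, map_add, map_one, map_mul, aeval_X, aeval_C, mul_comm s]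
    rw [h2]
    have h4 : g D.e1 = 1 := by
      show 1 + algebraMap k K (rs D.e1 q) * s = 1
      rw [rs_e1 hT hq, map_zero, zero_mul, add_zero]
    have h5 : (M.map g).prod = ((M.erase D.e1).map g).prod := by
      rw [← Multiset.prod_map_erase he1, h4, one_mul]
    rw [h5, ← hl, Multiset.map_coe, Multiset.prod_coe]
    exact (Fin.prod_univ_fun_getElem l g).symm

end Pool.Agent.Helper51.IS
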