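import Mathlib
import Pool.Agent.Helper51.IS.Defs
import Pool.Agent.Helper94.EW.Pencil

/-!
# Block IS-SEC: the pencil and the sections over it

Template: the first part of the proof of `exists_pencil` in `Helper94/EW/Pencil.lean`. By `exists_rr`
(VB/Rr.lean) there are `n - g ≥ N` linearly independent functions `Q_j` in the space `InRR`; take `N` of
them. For `z : Fin N → k` let `q (z) = ∑ z_i Q_i` (in `InRR`, nonzero if `z ≠ 0`). The functions in
`InRR` are regular at the places `r j`, which are not nice (`InRR.mem`), so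
`l_j (z) = rs (r j) (q (z)) = ∑ z_i rs (r j) (Q_i)` is a linear form (`isRes_rs`, uniqueness of values).
Number the pairs `(i, s) : Fin N × Fin m` by `Fin (N m)`; the `d < m N` first pairs get the linear forms
`l_j`, the last pair gets the free parameter `κ`, the others `0`, exactly as in `exists_pencil`, and apply
`Helper94.EW.exists_sections` (with `ι = Fin N`) to `x i`, `y i`, `i < N`. Then
`∏_{i<N} HH .. = (1 + C κ X) ∏_j (1 + C (l_j z) X)` (`prod_slots` in `Helper94/EW/Pencil.lean`). For the
indices `N ≤ i < n` take `H i = 1`, `P i = C (x i)`, `Q i = C (y i)`... with `H i = 1` the equation of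
section `i` is the equation of the constant curve.
-/

set_option linter.unusedSectionVars false

namespace Pool.Agent.Helper51.IS

open VC VF Function Polynomial
open Pool.Agent.Helper51.VB
open Pool.Agent.Helper51.VN (Harm OnE)

universe u

private lemma prod_dite56 {M : Type*} [CommMonoid M] {N n : ℕ} (hN : N ≤ n) (F : Fin N → M) :
    ∏ i : Fin n, (if h : i.val < N then F ⟨i.val, h⟩ else 1) = ∏ i, F i := by
  have h1 : ∏ i : Fin n, (if h : i.val < N then F ⟨i.val, h⟩ else 1) =
      ∏ i ∈ Finset.range n, (if h : i < N then F ⟨i, h⟩ else 1) :=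
    (Finset.prod_range (fun i => if h : i < N then F ⟨i, h⟩ else 1)).symm
  have h2 : ∏ i ∈ Finset.range N, (if h : i < N then F ⟨i, h⟩ else 1) =
      ∏ i ∈ Finset.range n, (if h : i < N then F ⟨i, h⟩ else 1) := by
    apply Finset.prod_subset (Finset.range_mono hN)
    intro i _ hi
    rw [Finset.mem_range] at hi
    rw [dif_neg hi]
  rw [h1, ← h2, Finset.prod_range]
  refine Finset.prod_congr rfl (fun i _ => ?_)
  rw [dif_pos i.2]

private lemma sum_dite56 {M : Type*} [AddCommMonoid M] {N n : ℕ} (hN : N ≤ n) (F : Fin N → M) :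
    ∑ i : Fin n, (if h : i.val < N then F ⟨i.val, h⟩ else 0) = ∑ i, F i :=
  prod_dite56 (M := Multiplicative M) hN F

variable {k L : Type u} [Field k] [IsAlgClosed k] [CharZero k] [Field L] [Algebra k L]
  {D : Ell k L} [D.Pos] {n : ℕ} {T : Fin n → Place k L} {x y : Fin n → k}

/-- An `N`-dimensional space of functions satisfying `InRR`. -/
private lemma exists_space56 {g N : ℕ} (hg : IsGenus k L g) (hn : N + g ≤ n) (hinj : Injective T) :
    ∃ Q : Fin N → L, LinearIndependent k Q ∧
      ∀ z : Fin N → k, InRR D T (∑ j, algebraMap k L (z j) * Q j) := by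
  obtain ⟨Q, hQ, hQ'⟩ := exists_rr (D := D) hg hinj
  have hN : N ≤ n - g := by omega
  refine ⟨fun j => Q (Fin.castLE hN j), hQ.comp _ (Fin.castLE_injective hN), fun z => ?_⟩
  have h1 := hQ' (fun j => if h : j.val < N then z ⟨j.val, h⟩ else 0)
  have h2 : ∑ j : Fin (n - g), algebraMap k L (if h : j.val < N then z ⟨j.val, h⟩ else 0) * Q j =
      ∑ j, algebraMap k L (z j) * Q (Fin.castLE hN j) := by
    rw [← sum_dite56 hN (fun j => algebraMap k L (z j) * Q (Fin.castLE hN j))]
    refine Finset.sum_congr rfl (fun j _ => ?_)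
    by_cases h : j.val < N
    · rw [dif_pos h, dif_pos h]
      rfl
    · rw [dif_neg h, dif_neg h, map_zero, zero_mul]
  rw [h2] at h1
  exact h1

theorem exists_sec (I : Twi D) {g : ℕ} (hg : IsGenus k L g) (hn : D.N + g ≤ n)
    (hT : ∀ i, D.Nice (T i)) (hinj : Injective T)
    (hxy : ∀ i, y i ^ 2 = x i ^ 3 + I.a * x i + I.b) (hy : ∀ i, y i ≠ 0) {d : ℕ}
    (r : Fin d → Place k L) (hd : d < I.m * D.N) (hr : ∀ j, ¬ D.Nice (r j)) :
    ∃ (q : L) (κ : k) (H P Q : Fin n → k[X]), q ≠ 0 ∧ InRR D T q ∧
      (∀ i, (H i).eval 0 = 1 ∧ (P i).eval 0 = x i ∧ (Q i).eval 0 = y i) ∧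
      (∀ i, Q i ^ 2 = P i ^ 3 + C I.a * H i ^ I.e4 * P i + C I.b * H i ^ I.e6) ∧
      ∏ i, H i = (1 + C κ * X) * ∏ j, (1 + C (rs (r j) q) * X) := by
  classical
  obtain ⟨Q0, hQli, hQrr⟩ := exists_space56 (D := D) (N := D.N) hg hn hinj
  have hNn : D.N ≤ n := by omega
  have hN := D.hN
  have hTr : ∀ j i, T i ≠ r j := by
    intro j i h
    apply hr j
    rw [← h]
    exact hT i
  have hQmem : ∀ j i, Q0 i ∈ (r j).ring := by
    intro j i
    have h1 := hQrr (Pi.single i 1)
    have h2 : ∑ l, algebraMap k L ((Pi.single i 1 : Fin D.N → k) l) * Q0 l = Q0 i := by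
      rw [Finset.sum_eq_single i]
      · rw [Pi.single_eq_same, map_one, one_mul]
      · intro b _ hb
        rw [Pi.single_eq_of_ne hb, map_zero, zero_mul]
      · intro h
        exact absurd (Finset.mem_univ i) h
    rw [h2] at h1
    exact h1.mem (hTr j)
  -- the linear forms
  let lin : Fin d → (Fin D.N → k) →ₗ[k] k := fun j =>
    ∑ i : Fin D.N, rs (r j) (Q0 i) • LinearMap.proj i
  have hlin : ∀ j z, rs (r j) (∑ i, algebraMap k L (z i) * Q0 i) = lin j z := by
    intro j z
    apply rs_eq
    have h1 : lin j z = ∑ i, z i * rs (r j) (Q0 i) := by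
      simp only [lin, LinearMap.sum_apply, LinearMap.smul_apply, LinearMap.proj_apply, smul_eq_mul]
      exact Finset.sum_congr rfl (fun i _ => mul_comm _ _)
    rw [h1]
    exact IsRes.sum _ fun i _ => (isRes_const (z i)).mul (isRes_rs D.hL (hQmem j i))
  let e : Fin D.N × Fin I.m ≃ Fin (D.N * I.m) := finProdFinEquiv
  have hM : 0 < D.N * I.m := Nat.mul_pos hN (Nat.pos_of_ne_zero I.hm0)
  have hdM : d < D.N * I.m := by rw [mul_comm]; exact hd
  let last : Fin (D.N * I.m) := ⟨D.N * I.m - 1, by omega⟩
  let l : Fin D.N → Fin I.m → (Fin D.N → k) →ₗ[k] k := fun i s =>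
    if h : (e (i, s)).val < d then lin ⟨_, h⟩ else 0
  obtain ⟨z, κ, A, B, hz, hAB0, hAB⟩ := Helper94.EW.exists_sections I.hE I.hm I.h4 I.h6
    (e.symm last).1 (e.symm last).2 (fun i => x (Fin.castLE hNn i)) (fun i => y (Fin.castLE hNn i))
    (fun i => hxy _) (fun i => hy _) l
  let H : Fin D.N → k[X] := fun i =>
    Helper94.EW.HH (fun s => if i = (e.symm last).1 ∧ s = (e.symm last).2 then κ else l i s z)
  have hprod : ∏ i, H i = (1 + C κ * X) * ∏ j, (1 + C (lin j z) * X) := by
    let G : ℕ → k[X] := fun n => if n = D.N * I.m - 1 then 1 + C κ * X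
      else if h : n < d then 1 + C (lin ⟨n, h⟩ z) * X else 1
    have h1 : ∏ i, H i = ∏ t : Fin (D.N * I.m), G t := by
      rw [← Equiv.prod_comp e, Fintype.prod_prod_type]
      refine Finset.prod_congr rfl (fun i _ => ?_)
      change ∏ s, (1 + C (if i = (e.symm last).1 ∧ s = (e.symm last).2 then κ else l i s z) * X) = _
      refine Finset.prod_congr rfl (fun s _ => ?_)
      have h2 : (i = (e.symm last).1 ∧ s = (e.symm last).2) ↔
          ((e (i, s) : Fin (D.N * I.m)) : ℕ) = D.N * I.m - 1 := by
        constructor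
        · rintro ⟨h3, h4⟩
          have : e (i, s) = last := by
            rw [h3, h4, Prod.mk.eta, Equiv.apply_symm_apply]
          rw [this]
        · intro h3
          have : e (i, s) = last := Fin.ext h3
          have h5 : (i, s) = e.symm last := by rw [← this, Equiv.symm_apply_apply]
          rw [← h5]
          exact ⟨rfl, rfl⟩
      simp only [G, l]
      by_cases h3 : i = (e.symm last).1 ∧ s = (e.symm last).2
      · rw [if_pos h3, if_pos (h2.mp h3)]
      · rw [if_neg h3, if_neg (fun h => h3 (h2.mpr h))]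
        split_ifs with h5
        · rfl
        · simp
    rw [h1]
    apply Helper94.EW.prod_slots hdM G _ _
    · simp [G]
    · intro j
      have := j.2
      simp only [G]
      rw [if_neg (by omega), dif_pos j.2]
    · intro n hn hn'
      simp only [G]
      rw [if_neg (by omega), dif_neg (by omega)]
  refine ⟨∑ i, algebraMap k L (z i) * Q0 i, κ,
    fun i => if h : i.val < D.N then H ⟨i.val, h⟩ else 1,
    fun i => if h : i.val < D.N then A ⟨i.val, h⟩ else C (x i),
    fun i => if h : i.val < D.N then B ⟨i.val, h⟩ else C (y i), ?_, hQrr z, ?_, ?_, ?_⟩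
  · intro h0
    apply hz
    have h1 : ∑ i, z i • Q0 i = 0 := by
      rw [← h0]
      exact Finset.sum_congr rfl (fun i _ => Algebra.smul_def _ _)
    exact funext (Fintype.linearIndependent_iff.mp hQli z h1)
  · intro i
    by_cases h : i.val < D.N
    · simp only [dif_pos h]
      exact ⟨Helper94.EW.HH_eval_zero _, hAB0 ⟨i.val, h⟩⟩
    · simp only [dif_neg h]
      simp
  · intro i
    by_cases h : i.val < D.N
    · simp only [dif_pos h]
      exact hAB ⟨i.val, h⟩
    · simp only [dif_neg h]
      rw [one_pow, one_pow, mul_one, mul_one, ← C_pow, ← C_pow, ← C_mul, ← C_add, ← C_add, hxy i]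
  · rw [prod_dite56 hNn H, hprod]
    congr 1
    exact Finset.prod_congr rfl (fun j _ => by rw [hlin j z])

end Pool.Agent.Helper51.IS
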