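import Mathlib
import Pool.Agent.Helper51.IS.Defs
import Pool.Agent.Helper83.EW.NoPoints
import Pool.Agent.Helper83.EW.Lines
import Pool.Agent.Helper51.VN.Pth

/-!
# Block IS-LIN: moving two points in the fibres

Template: `Helper83/EW/Lines.lean` (read `line_path`, `lines_of_slope`, `lines` there; the same proof with
the functional `Ψ` instead of `φ`). All base points `T l` and all points except the two in the slots `i, j` are
constant.

`onE_tw`: by `T l` nice, `I.hal`, `I.hbe` and `I.root` (`rs` of the functions, `isRes_rs`, uniqueness of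
values): `-3 a₀ = a v ^ 4`, `-2 b₀ = b v ^ 6` (if `a ≠ 0` then `m e4 = 4` and `f ^ e4` has the value
`(v ^ m) ^ e4 = v ^ 4`), so `(y v ^ 3) ^ 2 = (x v ^ 2) ^ 3 - 3 a₀ (x v ^ 2) - 2 b₀`.

`gt_harm`: for `x, y : Fin n → K` on the constant curve over the function field `K`, `OJ.harm` for the points
`{p := .cst (T l), x := x l * v l ^ 2, y := y l * v l ^ 3}` gives a harmonic function with the values
`GT Ψ T v (..)` where everything is regular (`KPt.Val` with `BP.Ov` for `.cst` = equality). NO statement at the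
poles is needed: in `line_path` both points are regular at all finite values of the slope `τ` (the
abscissas are roots of a monic quadratic equation over `k [τ]`), only the finite values `t₀, t₁` are used.

`gt_odd`: `h.odd`. `gt_zero`: `y i = 0` gives `GT = - GT`.

`gt_lines`: the path along the lines through a fixed point `(X, Y)` of the constant curve: for the sum
`F₁ + F₂` of the two harmonic functions given by `gt_harm` for `(P₁, P₂)` and `(P₂, P₁)` in the slots `i, j`. The path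
lemma for a harmonic function `F` on the places of `K` with the constant value `c₀` at all places over `τ = t₀` and
`c₁` at all places over `τ = t₁`: apply `Harm` to `(τ - t₀) / (τ - t₁)`; see `Helper51/VN/` (e.g. `LemP.lean`,
`Line3.lean`, `Basic.lean`) for such a path lemma for `Harm`.
-/

set_option linter.unusedSectionVars false

namespace Pool.Agent.Helper51.IS

open VC VF Function Polynomial
open Pool.Agent.Helper51.VB
open Pool.Agent.Helper51.VN (Harm OnE)

universe u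

variable {k L : Type u} [Field k] [IsAlgClosed k] [CharZero k] [Field L] [Algebra k L]
  {D : Ell k L} {n : ℕ} {Ψ : (Fin n → Place k L × k × k) → k} {T : Fin n → Place k L}
  {v x y : Fin n → k}

/-- The coefficients of the fibre over a nice place. -/
private lemma lin_coeff_h94 (I : Twi D) {P : Place k L} (hP : D.Nice P) {v : k}
    (hv : v ^ I.m = rs P I.f) :
    -3 * D.a₀ P = I.a * v ^ 4 ∧ -2 * D.b₀ P = I.b * v ^ 6 := by
  have hf : I.f ∈ P.ring := (ord_nonneg_iff D.hL P I.hf0).mp (by rw [I.ord_nice hP])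
  have h0 : IsRes P I.f (v ^ I.m) := by
    rw [hv]
    exact isRes_rs D.hL hf
  have h3 : IsRes P (-3 : L) (-3 : k) := by
    have := isRes_const (v := P) (-3 : k)
    rwa [map_neg, map_ofNat] at this
  have h2 : IsRes P (-2 : L) (-2 : k) := by
    have := isRes_const (v := P) (-2 : k)
    rwa [map_neg, map_ofNat] at this
  have ha := h3.mul (isRes_rs D.hL hP.1)
  have hb := h2.mul (isRes_rs D.hL hP.2.1)
  rw [I.hal] at ha
  rw [I.hbe] at hb
  have ha' := ha.unique ((isRes_const I.a).mul (h0.pow I.e4))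
  have hb' := hb.unique ((isRes_const I.b).mul (h0.pow I.e6))
  constructor
  · refine Eq.trans ha' ?_
    rcases I.h4 with h | h
    · rw [h, zero_mul, zero_mul]
    · rw [← pow_mul, h]
  · refine Eq.trans hb' ?_
    rcases I.h6 with h | h
    · rw [h, zero_mul, zero_mul]
    · rw [← pow_mul, h]

lemma onE_tw (I : Twi D) {P : Place k L} (hP : D.Nice P) {v x y : k} (hv : v ^ I.m = rs P I.f)
    (h : y ^ 2 = x ^ 3 + I.a * x + I.b) :
    OnE (D.a₀ P) (D.b₀ P) (x * v ^ 2) (y * v ^ 3) := by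
  obtain ⟨ha, hb⟩ := lin_coeff_h94 I hP hv
  unfold OnE
  linear_combination v ^ 6 * h - x * v ^ 2 * ha - hb

lemma gt_harm (I : Twi D) (h : OJ D n Ψ) (hT : ∀ i, D.Nice (T i))
    (hv : ∀ i, v i ^ I.m = rs (T i) I.f) {K : Type u} [Field K] [Algebra k K]
    (hK : IsFunctionField k K) (x y : Fin n → K)
    (hxy : ∀ i, y i ^ 2 = x i ^ 3 + algebraMap k K I.a * x i + algebraMap k K I.b) :
    ∃ F : Place k K → k, Harm hK F ∧ ∀ (w : Place k K) (c d : Fin n → k),
      (∀ i, IsRes w (x i) (c i)) → (∀ i, IsRes w (y i) (d i)) → F w = GT Ψ T v c d := by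
  obtain ⟨F, hF, hval, -⟩ := h.harm K hK (fun i => (⟨.cst (T i), x i * algebraMap k K (v i) ^ 2,
    y i * algebraMap k K (v i) ^ 3, by
      intro P hP
      cases hP
      exact hT i, by
      obtain ⟨ha, hb⟩ := lin_coeff_h94 I (hT i) (hv i)
      have ha' := congrArg (algebraMap k K) ha
      have hb' := congrArg (algebraMap k K) hb
      simp only [map_mul, map_neg, map_ofNat, map_pow] at ha' hb'
      unfold OnE
      change (y i * algebraMap k K (v i) ^ 3) ^ 2 = (x i * algebraMap k K (v i) ^ 2) ^ 3 -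
        3 * algebraMap k K (D.a₀ (T i)) * (x i * algebraMap k K (v i) ^ 2) -
        2 * algebraMap k K (D.b₀ (T i))
      linear_combination algebraMap k K (v i) ^ 6 * hxy i -
        x i * algebraMap k K (v i) ^ 2 * ha' - hb'⟩ : KPt D K))
  refine ⟨F, hF, fun w c d hc hd => ?_⟩
  exact hval w (fun i => (T i, c i * v i ^ 2, d i * v i ^ 3)) (fun i => ⟨hT i, rfl,
    (hc i).mul ((isRes_const (v i)).pow 2), (hd i).mul ((isRes_const (v i)).pow 3)⟩)

lemma gt_odd (I : Twi D) (h : OJ D n Ψ) (hV : I.Valid T v x y) (i : Fin n) :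
    GT Ψ T v x (update y i (-y i)) = -GT Ψ T v x y := by
  have h1 := h.odd (fun l => (T l, x l * v l ^ 2, y l * v l ^ 3)) i (fun l =>
    ⟨hV.nice l, onE_tw I (hV.nice l) (hV.root l) (hV.curve l)⟩)
  have h2 : update (fun l => (T l, x l * v l ^ 2, y l * v l ^ 3)) i
      (T i, x i * v i ^ 2, -(y i * v i ^ 3)) =
      fun l => (T l, x l * v l ^ 2, update y i (-y i) l * v l ^ 3) := by
    funext l
    by_cases hl : l = i
    · subst hl
      rw [update_self, update_self, neg_mul]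
    · rw [update_of_ne hl, update_of_ne hl]
  unfold GT
  rw [← h2]
  exact h1

lemma gt_zero (I : Twi D) (h : OJ D n Ψ) (hV : I.Valid T v x y) {i : Fin n} (hi : y i = 0) :
    GT Ψ T v x y = 0 := by
  have h1 := gt_odd I h hV i
  rw [hi, neg_zero] at h1
  have h2 : update y i 0 = y := by
    rw [← hi]
    exact update_eq_self i y
  rw [h2] at h1
  exact self_eq_neg.mp h1

/-- The function on pairs of points of the constant curve, in the slots `i`, `j`. -/
private def lin_G (Ψ : (Fin n → Place k L × k × k) → k) (T : Fin n → Place k L)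
    (v x y : Fin n → k) (i j : Fin n) (x₁ y₁ x₂ y₂ : k) : k :=
  GT Ψ T v (update (update x i x₁) j x₂) (update (update y i y₁) j y₂)

private lemma lin_valid (I : Twi D) (hV : I.Valid T v x y) (i j : Fin n) {x₁ y₁ x₂ y₂ : k}
    (h1 : y₁ ^ 2 = x₁ ^ 3 + I.a * x₁ + I.b) (h2 : y₂ ^ 2 = x₂ ^ 3 + I.a * x₂ + I.b) :
    I.Valid T v (update (update x i x₁) j x₂) (update (update y i y₁) j y₂) := by
  refine ⟨hV.nice, hV.root, fun l => ?_⟩
  by_cases hj : l = j
  · subst hj
    rw [update_self, update_self]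
    exact h2
  · rw [update_of_ne hj, update_of_ne hj]
    by_cases hi : l = i
    · subst hi
      rw [update_self, update_self]
      exact h1
    · rw [update_of_ne hi, update_of_ne hi]
      exact hV.curve l

private lemma lin_zero_left (I : Twi D) (h : OJ D n Ψ) (hV : I.Valid T v x y) {i j : Fin n}
    (hij : i ≠ j) {x₁ y₁ x₂ y₂ : k} (h1 : y₁ ^ 2 = x₁ ^ 3 + I.a * x₁ + I.b)
    (h2 : y₂ ^ 2 = x₂ ^ 3 + I.a * x₂ + I.b) (hy : y₁ = 0) :
    lin_G Ψ T v x y i j x₁ y₁ x₂ y₂ = 0 := by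
  refine gt_zero I h (lin_valid I hV i j h1 h2) (i := i) ?_
  rw [update_of_ne hij, update_self, hy]

private lemma lin_zero_right (I : Twi D) (h : OJ D n Ψ) (hV : I.Valid T v x y) {i j : Fin n}
    {x₁ y₁ x₂ y₂ : k} (h1 : y₁ ^ 2 = x₁ ^ 3 + I.a * x₁ + I.b)
    (h2 : y₂ ^ 2 = x₂ ^ 3 + I.a * x₂ + I.b) (hy : y₂ = 0) :
    lin_G Ψ T v x y i j x₁ y₁ x₂ y₂ = 0 := by
  refine gt_zero I h (lin_valid I hV i j h1 h2) (i := j) ?_
  rw [update_self, hy]

private lemma lin_neg_left (I : Twi D) (h : OJ D n Ψ) (hV : I.Valid T v x y) {i j : Fin n}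
    (hij : i ≠ j) {x₁ y₁ x₂ y₂ : k} (h1 : y₁ ^ 2 = x₁ ^ 3 + I.a * x₁ + I.b)
    (h2 : y₂ ^ 2 = x₂ ^ 3 + I.a * x₂ + I.b) :
    lin_G Ψ T v x y i j x₁ (-y₁) x₂ y₂ = -lin_G Ψ T v x y i j x₁ y₁ x₂ y₂ := by
  have h3 := gt_odd I h (lin_valid I hV i j h1 h2) i
  have h4 : update (update (update y i y₁) j y₂) i (-(update (update y i y₁) j y₂) i) =
      update (update y i (-y₁)) j y₂ := by
    rw [update_of_ne hij, update_self, update_comm hij.symm, update_idem]
  rw [h4] at h3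
  exact h3

private lemma lin_neg_right (I : Twi D) (h : OJ D n Ψ) (hV : I.Valid T v x y) {i j : Fin n}
    {x₁ y₁ x₂ y₂ : k} (h1 : y₁ ^ 2 = x₁ ^ 3 + I.a * x₁ + I.b)
    (h2 : y₂ ^ 2 = x₂ ^ 3 + I.a * x₂ + I.b) :
    lin_G Ψ T v x y i j x₁ y₁ x₂ (-y₂) = -lin_G Ψ T v x y i j x₁ y₁ x₂ y₂ := by
  have h3 := gt_odd I h (lin_valid I hV i j h1 h2) j
  have h4 : update (update (update y i y₁) j y₂) j (-(update (update y i y₁) j y₂) j) =
      update (update y i y₁) j (-y₂) := by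
    rw [update_self, update_idem]
  rw [h4] at h3
  exact h3

/-- The function on the pairs of points on a line through the fixed point `(X, Y)` is
constant. -/
private theorem lin_line_path (I : Twi D) (h : OJ D n Ψ) (hV : I.Valid T v x y) (i j : Fin n)
    {X Y : k} (hR : Y ^ 2 = X ^ 3 + I.a * X + I.b) {t₀ t₁ : k} (ht : t₀ ≠ t₁) {c₀ c₁ : k}
    (H₀ : ∀ z z' : k, z + z' = t₀ ^ 2 - X → z * z' = X ^ 2 + I.a + t₀ ^ 2 * X - 2 * t₀ * Y →
      lin_G Ψ T v x y i j z (Y + t₀ * (z - X)) z' (Y + t₀ * (z' - X)) +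
        lin_G Ψ T v x y i j z' (Y + t₀ * (z' - X)) z (Y + t₀ * (z - X)) = c₀)
    (H₁ : ∀ z z' : k, z + z' = t₁ ^ 2 - X → z * z' = X ^ 2 + I.a + t₁ ^ 2 * X - 2 * t₁ * Y →
      lin_G Ψ T v x y i j z (Y + t₁ * (z - X)) z' (Y + t₁ * (z' - X)) +
        lin_G Ψ T v x y i j z' (Y + t₁ * (z' - X)) z (Y + t₁ * (z - X)) = c₁) : c₀ = c₁ := by
  obtain ⟨a, ha⟩ : ∃ a, a = I.a := ⟨_, rfl⟩
  obtain ⟨b, hb⟩ : ∃ b, b = I.b := ⟨_, rfl⟩
  rw [← ha] at hR H₀ H₁
  rw [← hb] at hR
  -- the discriminant of the quadratic equation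
  obtain ⟨Δ, hΔ⟩ : ∃ Δ : Polynomial k, Δ = (Polynomial.X ^ 2 - Polynomial.C X) ^ 2 -
    Polynomial.C 4 * (Polynomial.C (X ^ 2 + a) + Polynomial.X ^ 2 * Polynomial.C X -
      Polynomial.C 2 * Polynomial.X * Polynomial.C Y) := ⟨_, rfl⟩
  obtain ⟨K, _, _, τ, r, hK, hτ, hy⟩ := exists_poly_roots (k := k) two_ne_zero
    (fun _ : Fin 1 => Δ)
  have hdel : r 0 ^ 2 = (τ ^ 2 - algebraMap k K X) ^ 2 -
      4 * (algebraMap k K (X ^ 2 + a) + τ ^ 2 * algebraMap k K X -
        2 * τ * algebraMap k K Y) := by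
    rw [hy 0, hΔ]
    simp only [map_sub, map_mul, map_add, map_pow, Polynomial.aeval_X, Polynomial.aeval_C,
      map_ofNat]
  have h2K : (2 : K) ≠ 0 := by
    have : CharZero K := charZero_of_injective_algebraMap (algebraMap k K).injective
    exact two_ne_zero
  obtain ⟨ι, hι⟩ : ∃ ι : k →+* K, ι = algebraMap k K := ⟨_, rfl⟩
  rw [← hι] at hdel
  obtain ⟨d, hd⟩ : ∃ d : K, d = r 0 := ⟨_, rfl⟩
  rw [← hd] at hdel
  obtain ⟨x₁, hx₁⟩ : ∃ x₁ : K, x₁ = ι 2⁻¹ * (τ ^ 2 - ι X + d) := ⟨_, rfl⟩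
  obtain ⟨x₂, hx₂⟩ : ∃ x₂ : K, x₂ = ι 2⁻¹ * (τ ^ 2 - ι X - d) := ⟨_, rfl⟩
  have hι2 : ι 2⁻¹ * 2 = 1 := by
    have : ι (2⁻¹ * 2) = 1 := by
      rw [inv_mul_cancel₀ (two_ne_zero : (2 : k) ≠ 0), map_one]
    rw [← this, map_mul, map_ofNat]
  have hsum : x₁ + x₂ = τ ^ 2 - ι X := by
    rw [hx₁, hx₂]; linear_combination (τ ^ 2 - ι X) * hι2
  have hprod : x₁ * x₂ = ι X ^ 2 + ι a + τ ^ 2 * ι X - 2 * τ * ι Y := by
    rw [hx₁, hx₂]
    have e : ι 2⁻¹ * (τ ^ 2 - ι X + d) * (ι 2⁻¹ * (τ ^ 2 - ι X - d)) =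
        ι 2⁻¹ ^ 2 * ((τ ^ 2 - ι X) ^ 2 - d ^ 2) := by ring
    rw [e, hdel]
    rw [map_add, map_pow]
    linear_combination (ι X ^ 2 + ι a + τ ^ 2 * ι X - 2 * τ * ι Y) * (ι 2⁻¹ * 2 + 1) * hι2
  have hRK : ι Y ^ 2 = ι X ^ 3 + ι a * ι X + ι b := by
    have := congrArg ι hR
    simpa only [map_add, map_mul, map_pow] using this
  obtain ⟨f, hf⟩ : ∃ f : K → K, ∀ x, f x = ι Y + τ * (x - ι X) := ⟨_, fun _ => rfl⟩
  have hcurve : ∀ x : K, x ^ 2 + (ι X - τ ^ 2) * x + (ι X ^ 2 + ι a + τ ^ 2 * ι X - 2 * τ * ι Y) = 0 →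
      f x ^ 2 = x ^ 3 + ι a * x + ι b := by
    intro x hx
    rw [hf]
    linear_combination hRK - (x - ι X) * hx
  have hq₁ : f x₁ ^ 2 = x₁ ^ 3 + ι a * x₁ + ι b := by
    apply hcurve
    linear_combination x₁ * hsum - hprod
  have hq₂ : f x₂ ^ 2 = x₂ ^ 3 + ι a * x₂ + ι b := by
    apply hcurve
    linear_combination x₂ * hsum - hprod
  -- the harmonic functions
  have hpt : ∀ z z' : K, f z ^ 2 = z ^ 3 + ι a * z + ι b → f z' ^ 2 = z' ^ 3 + ι a * z' + ι b →
      ∃ F : Place k K → k, Harm hK F ∧ ∀ (w : Place k K) (c c' e e' : k), IsRes w z c →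
        IsRes w z' c' → IsRes w (f z) e → IsRes w (f z') e' →
        F w = lin_G Ψ T v x y i j c e c' e' := by
    intro z z' hz hz'
    obtain ⟨F, hF, hval⟩ := gt_harm (v := v) (T := T) I h hV.nice hV.root hK
      (update (update (fun l => ι (x l)) i z) j z')
      (update (update (fun l => ι (y l)) i (f z)) j (f z')) (by
        intro l
        rw [← hι, ← ha, ← hb]
        by_cases hj : l = j
        · subst hj
          rw [update_self, update_self]
          exact hz'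
        · rw [update_of_ne hj, update_of_ne hj]
          by_cases hi : l = i
          · subst hi
            rw [update_self, update_self]
            exact hz
          · rw [update_of_ne hi, update_of_ne hi]
            have h1 := congrArg ι (hV.curve l)
            rw [← ha, ← hb] at h1
            simpa only [map_add, map_mul, map_pow] using h1)
    refine ⟨F, hF, fun w c c' e e' h1 h2 h3 h4 => ?_⟩
    refine hval w (update (update x i c) j c') (update (update y i e) j e') (fun l => ?_)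
      (fun l => ?_)
    · by_cases hj : l = j
      · subst hj
        rw [update_self, update_self]
        exact h2
      · rw [update_of_ne hj, update_of_ne hj]
        by_cases hi : l = i
        · subst hi
          rw [update_self, update_self]
          exact h1
        · rw [update_of_ne hi, update_of_ne hi, hι]
          exact isRes_const _
    · by_cases hj : l = j
      · subst hj
        rw [update_self, update_self]
        exact h4
      · rw [update_of_ne hj, update_of_ne hj]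
        by_cases hi : l = i
        · subst hi
          rw [update_self, update_self]
          exact h3
        · rw [update_of_ne hi, update_of_ne hi, hι]
          exact isRes_const _
  obtain ⟨F₁, hF₁, hv₁⟩ := hpt x₁ x₂ hq₁ hq₂
  obtain ⟨F₂, hF₂, hv₂⟩ := hpt x₂ x₁ hq₂ hq₁
  have hval : ∀ (t : k) (w : Place k K), IsRes w τ t → ∃ z z' : k, z + z' = t ^ 2 - X ∧
      z * z' = X ^ 2 + a + t ^ 2 * X - 2 * t * Y ∧
      F₁ w + F₂ w =
      lin_G Ψ T v x y i j z (Y + t * (z - X)) z' (Y + t * (z' - X)) +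
        lin_G Ψ T v x y i j z' (Y + t * (z' - X)) z (Y + t * (z - X)) := by
    intro t w hw
    have hdd : IsRes w (d ^ 2) ((t ^ 2 - X) ^ 2 - 4 * (X ^ 2 + a + t ^ 2 * X - 2 * t * Y)) := by
      rw [hd, hy 0]
      have := hw.poly (p := Δ)
      have e : Δ.eval t = (t ^ 2 - X) ^ 2 - 4 * (X ^ 2 + a + t ^ 2 * X - 2 * t * Y) := by
        rw [hΔ]
        simp only [Polynomial.eval_sub, Polynomial.eval_mul, Polynomial.eval_add,
          Polynomial.eval_pow, Polynomial.eval_X, Polynomial.eval_C]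
      rwa [e] at this
    obtain ⟨e, he, he2⟩ := exists_res_of_pow hK two_ne_zero hdd
    have hcs : ∀ c : k, IsRes w (ι c) c := by
      intro c
      rw [hι]
      exact isRes_const c
    have r₁ : IsRes w x₁ (2⁻¹ * (t ^ 2 - X + e)) := by
      rw [hx₁]
      exact (hcs _).mul (((hw.pow 2).sub (hcs X)).add he)
    have r₂ : IsRes w x₂ (2⁻¹ * (t ^ 2 - X - e)) := by
      rw [hx₂]
      exact (hcs _).mul (((hw.pow 2).sub (hcs X)).sub he)
    have h2 : (2 : k)⁻¹ * 2 = 1 := inv_mul_cancel₀ two_ne_zero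
    have rf : ∀ {x : K} {x0 : k}, IsRes w x x0 → IsRes w (f x) (Y + t * (x0 - X)) := by
      intro x x0 hx
      rw [hf]
      exact (hcs Y).add (hw.mul (hx.sub (hcs X)))
    refine ⟨2⁻¹ * (t ^ 2 - X + e), 2⁻¹ * (t ^ 2 - X - e), ?_, ?_, ?_⟩
    · linear_combination (t ^ 2 - X) * h2
    · have e1 : (2 : k)⁻¹ * (t ^ 2 - X + e) * (2⁻¹ * (t ^ 2 - X - e)) =
          (2 : k)⁻¹ ^ 2 * ((t ^ 2 - X) ^ 2 - e ^ 2) := by ring
      rw [e1, he2]
      linear_combination (X ^ 2 + a + t ^ 2 * X - 2 * t * Y) * ((2 : k)⁻¹ * 2 + 1) * h2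
    · rw [hv₁ w _ _ _ _ r₁ r₂ (rf r₁) (rf r₂), hv₂ w _ _ _ _ r₂ r₁ (rf r₂) (rf r₁)]
  refine Helper51.VN.Harm.path (Helper51.VN.Harm.add hF₁ hF₂) hτ ht (fun w hw => ?_)
    (fun w hw => ?_)
  · obtain ⟨z, z', e1, e2, e3⟩ := hval t₀ w hw
    rw [e3]
    exact H₀ z z' e1 e2
  · obtain ⟨z, z', e1, e2, e3⟩ := hval t₁ w hw
    rw [e3]
    exact H₁ z z' e1 e2

/-- The main case: the line through `(x₁, y₁)` and `(x₂, y₂)` has slope `μ`. -/
private theorem lin_of_slope (I : Twi D) (h : OJ D n Ψ) (hV : I.Valid T v x y) {i j : Fin n}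
    (hij : i ≠ j) {x₁ y₁ x₂ y₂ : k} (hP : y₁ ^ 2 = x₁ ^ 3 + I.a * x₁ + I.b)
    (hy : y₁ ≠ 0) (hy' : y₂ ≠ 0) {μ : k} (hl : y₂ = y₁ + μ * (x₂ - x₁))
    (hm : 2 * μ * y₁ = x₁ ^ 2 + x₁ * x₂ + x₂ ^ 2 + I.a - μ ^ 2 * (x₂ - x₁)) :
    lin_G Ψ T v x y i j x₁ y₁ x₂ y₂ + lin_G Ψ T v x y i j x₂ y₂ x₁ y₁ = 0 := by
  obtain ⟨e, he, hs, hp, hr⟩ := Helper83.EW.exists_roots I.hE
  have hroot : ∀ i, e i ^ 3 + I.a * e i + I.b = 0 := by
    intro i
    have hb : I.b = -(e 0 * e 1 * e 2) := by rw [hr, neg_neg]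
    rw [hb, ← hp]
    fin_cases i
    · change e 0 ^ 3 + _ * e 0 + _ = 0
      linear_combination e 0 ^ 2 * hs
    · change e 1 ^ 3 + _ * e 1 + _ = 0
      linear_combination e 1 ^ 2 * hs
    · change e 2 ^ 3 + _ * e 2 + _ = 0
      linear_combination e 2 ^ 2 * hs
  obtain ⟨X, hX⟩ : ∃ X : k, X = μ ^ 2 - x₁ - x₂ := ⟨_, rfl⟩
  obtain ⟨Y, hY⟩ : ∃ Y : k, Y = y₁ + μ * (X - x₁) := ⟨_, rfl⟩
  have hR : Y ^ 2 = X ^ 3 + I.a * X + I.b := by
    rw [hY]
    linear_combination hP + (X - x₁) * hm - (X - x₁) * (X - x₂) * hX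
  obtain ⟨i₀, hi⟩ : ∃ i, e i ≠ X := by
    by_contra hcon
    push Not at hcon
    exact absurd (he ((hcon 0).trans (hcon 1).symm)) (by decide)
  obtain ⟨ε, hε⟩ : ∃ ε : k, ε = e i₀ := ⟨_, rfl⟩
  rw [← hε] at hi
  have hεr : ε ^ 3 + I.a * ε + I.b = 0 := by rw [hε]; exact hroot i₀
  have hd : X - ε ≠ 0 := sub_ne_zero.mpr (Ne.symm hi)
  obtain ⟨t₁, ht₁'⟩ : ∃ t₁ : k, t₁ * (X - ε) = Y := ⟨Y / (X - ε), div_mul_cancel₀ _ hd⟩
  have hεq : ε ^ 2 + (X - t₁ ^ 2) * ε + (X ^ 2 + I.a + t₁ ^ 2 * X - 2 * t₁ * Y) = 0 := by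
    have h3 : (ε - X) * (ε ^ 2 + (X - t₁ ^ 2) * ε + (X ^ 2 + I.a + t₁ ^ 2 * X - 2 * t₁ * Y)) = 0 := by
      linear_combination hεr + hR - (t₁ * (X - ε) - Y) * ht₁'
    rcases mul_eq_zero.mp h3 with h3 | h3
    · exact absurd (sub_eq_zero.mp h3) hi
    · exact h3
  have hxx : x₁ * x₂ = X ^ 2 + I.a + μ ^ 2 * X - 2 * μ * Y := by
    rw [hY]
    linear_combination hm - (X - x₁ - x₂) * hX
  have hYx : Y + μ * (x₁ - X) = y₁ := by rw [hY]; ring
  have hYx' : Y + μ * (x₂ - X) = y₂ := by rw [hY, hl]; ring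
  -- the two slopes are different
  have hne : μ ≠ t₁ := by
    rintro hμ
    have h3 : (ε - x₁) * (ε - x₂) = 0 := by
      rw [← hμ] at hεq
      linear_combination hεq + hxx - ε * hX
    have hz : Y + μ * (ε - X) = 0 := by rw [hμ]; linear_combination -ht₁'
    rcases mul_eq_zero.mp h3 with h3 | h3
    · rw [sub_eq_zero.mp h3, hYx] at hz
      exact hy hz
    · rw [sub_eq_zero.mp h3, hYx'] at hz
      exact hy' hz
  have hcu : ∀ {t z : k}, z ^ 2 + (X - t ^ 2) * z + (X ^ 2 + I.a + t ^ 2 * X - 2 * t * Y) = 0 →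
      (Y + t * (z - X)) ^ 2 = z ^ 3 + I.a * z + I.b := by
    intro t z hz
    linear_combination hR - (z - X) * hz
  refine lin_line_path I h hV i j hR hne ?_ ?_
  · intro z z' e1 e2
    have e1' : z + z' = x₁ + x₂ := by rw [e1, hX]; ring
    rcases Helper83.EW.pair_eq e1' (e2.trans hxx.symm) with ⟨rfl, rfl⟩ | ⟨rfl, rfl⟩
    · rw [hYx, hYx']
    · rw [hYx, hYx', add_comm]
  · intro z z' e1 e2
    have e3 : (ε - z) * (ε - z') = 0 := by linear_combination hεq - ε * e1 + e2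
    have cz : (Y + t₁ * (z - X)) ^ 2 = z ^ 3 + I.a * z + I.b := by
      apply hcu
      linear_combination z * e1 - e2
    have cz' : (Y + t₁ * (z' - X)) ^ 2 = z' ^ 3 + I.a * z' + I.b := by
      apply hcu
      linear_combination z' * e1 - e2
    rcases mul_eq_zero.mp e3 with e3 | e3
    · have ez : Y + t₁ * (z - X) = 0 := by
        rw [← sub_eq_zero.mp e3]; linear_combination -ht₁'
      rw [lin_zero_left I h hV hij cz cz' ez, lin_zero_right I h hV cz' cz ez, add_zero]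
    · have ez : Y + t₁ * (z' - X) = 0 := by
        rw [← sub_eq_zero.mp e3]; linear_combination -ht₁'
      rw [lin_zero_right I h hV cz cz' ez, lin_zero_left I h hV hij cz' cz ez, add_zero]

private theorem lin_main (I : Twi D) (h : OJ D n Ψ) (hV : I.Valid T v x y) {i j : Fin n}
    (hij : i ≠ j) {x₁ y₁ x₂ y₂ : k} (hP : y₁ ^ 2 = x₁ ^ 3 + I.a * x₁ + I.b)
    (hQ : y₂ ^ 2 = x₂ ^ 3 + I.a * x₂ + I.b) :
    lin_G Ψ T v x y i j x₁ y₁ x₂ y₂ + lin_G Ψ T v x y i j x₂ y₂ x₁ y₁ = 0 := by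
  by_cases hy : y₁ = 0
  · rw [lin_zero_left I h hV hij hP hQ hy, lin_zero_right I h hV hQ hP hy, add_zero]
  by_cases hy' : y₂ = 0
  · rw [lin_zero_right I h hV hP hQ hy', lin_zero_left I h hV hij hQ hP hy', add_zero]
  have htan : ∀ {z t : k}, t ^ 2 = z ^ 3 + I.a * z + I.b → t ≠ 0 →
      lin_G Ψ T v x y i j z t z t + lin_G Ψ T v x y i j z t z t = 0 := by
    intro z t hP hy
    refine lin_of_slope I h hV hij hP hy hy
      (μ := (3 * z ^ 2 + I.a) / (2 * t)) (by ring) ?_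
    have h3 : (2 : k) * t ≠ 0 := mul_ne_zero two_ne_zero hy
    have h4 : (3 * z ^ 2 + I.a) / (2 * t) * (2 * t) = 3 * z ^ 2 + I.a := div_mul_cancel₀ _ h3
    linear_combination h4
  by_cases hxx : x₁ = x₂
  · subst hxx
    have h3 : (y₂ - y₁) * (y₂ + y₁) = 0 := by linear_combination hQ - hP
    rcases mul_eq_zero.mp h3 with h3 | h3
    · rw [sub_eq_zero.mp h3]
      exact htan hP hy
    · have h4 : y₂ = -y₁ := eq_neg_of_add_eq_zero_left h3
      rw [h4, lin_neg_right I h hV hP hP, lin_neg_left I h hV hij hP hP]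
      have := htan hP hy
      linear_combination -this
  · have hd : x₂ - x₁ ≠ 0 := sub_ne_zero.mpr (Ne.symm hxx)
    have h4 : (y₂ - y₁) / (x₂ - x₁) * (x₂ - x₁) = y₂ - y₁ := div_mul_cancel₀ _ hd
    refine lin_of_slope I h hV hij hP hy hy'
      (μ := (y₂ - y₁) / (x₂ - x₁)) (by rw [h4]; ring) ?_
    set μ := (y₂ - y₁) / (x₂ - x₁) with hμ
    have h5 : (x₂ - x₁) * (2 * μ * y₁ - (x₁ ^ 2 + x₁ * x₂ + x₂ ^ 2 + I.a - μ ^ 2 * (x₂ - x₁))) = 0 := by
      linear_combination (2 * y₁ + (μ * (x₂ - x₁) + (y₂ - y₁))) * h4 + hQ - hP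
    exact sub_eq_zero.mp ((mul_eq_zero.mp h5).resolve_left hd)

/-- Exchanging the points of the constant curve in two slots. -/
theorem gt_lines (I : Twi D) (h : OJ D n Ψ) (hV : I.Valid T v x y) {i j : Fin n} (hij : i ≠ j) :
    GT Ψ T v (x ∘ Equiv.swap i j) (y ∘ Equiv.swap i j) = -GT Ψ T v x y := by
  have h1 := lin_main I h hV hij (hV.curve i) (hV.curve j)
  have e1 : ∀ f : Fin n → k, update (update f i (f i)) j (f j) = f := by
    intro f
    rw [update_eq_self, update_eq_self]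
  have e2 : ∀ f : Fin n → k, update (update f i (f j)) j (f i) = f ∘ Equiv.swap i j := by
    intro f
    funext l
    by_cases hj : l = j
    · subst hj
      rw [update_self, comp_apply, Equiv.swap_apply_right]
    · rw [update_of_ne hj]
      by_cases hi : l = i
      · subst hi
        rw [update_self, comp_apply, Equiv.swap_apply_left]
      · rw [update_of_ne hi, comp_apply, Equiv.swap_apply_of_ne_of_ne hi hj]
  unfold lin_G at h1
  rw [e1, e1, e2, e2] at h1
  exact eq_neg_of_add_eq_zero_right h1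

end Pool.Agent.Helper51.IS
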