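import Mathlib
import Pool.Agent.Helper51.IS.Lin
import Pool.Agent.Helper51.EW.Sym

/-!
# Block IS-SYM: the symmetries of the functional

Template: `Helper51/EW/Sym.lean` (`G_alt`, `G_sym`, `G_move`, `G_prod`; the same proofs). `gt_alt` is `h.alt`
(the points are on the curves: `onE_tw`). `gt_twist`: `(g v) ^ 2 x = v ^ 2 (g ^ 2 x)`, as `EW.tp_twist`,
`EW.curve_twist`. `EW.eq_of_prod` can be used as it is.
-/

set_option linter.unusedSectionVars false

namespace Pool.Agent.Helper51.IS

open VC VF Function Polynomial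
open Pool.Agent.Helper51.VB
open Pool.Agent.Helper51.VN (Harm OnE)

universe u

variable {k L : Type u} [Field k] [IsAlgClosed k] [CharZero k] [Field L] [Algebra k L]
  {D : Ell k L} {n : ℕ} {Ψ : (Fin n → Place k L × k × k) → k} {T : Fin n → Place k L}
  {v x y : Fin n → k}

lemma curve_twist (I : Twi D) {x y g : k} (h : y ^ 2 = x ^ 3 + I.a * x + I.b) (hg : g ^ I.m = 1) :
    (g ^ 3 * y) ^ 2 = (g ^ 2 * x) ^ 3 + I.a * (g ^ 2 * x) + I.b := by
  have h4 : I.a * g ^ 4 = I.a := by
    rcases I.h4 with h4 | h4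
    · rw [h4, zero_mul]
    · rw [← h4, pow_mul, hg, one_pow, mul_one]
  have h6 : I.b * g ^ 6 = I.b := by
    rcases I.h6 with h6 | h6
    · rw [h6, zero_mul]
    · rw [← h6, pow_mul, hg, one_pow, mul_one]
  linear_combination g ^ 6 * h + g ^ 2 * x * h4 + h6

lemma gt_twist (T : Place k L) (v x y g : k) :
    ((T, x * (g * v) ^ 2, y * (g * v) ^ 3) : Place k L × k × k) =
      (T, (g ^ 2 * x) * v ^ 2, (g ^ 3 * y) * v ^ 3) := by
  congr 2 <;> ring

lemma gt_alt (I : Twi D) (h : OJ D n Ψ) (hV : I.Valid T v x y) {i j : Fin n} (hij : i ≠ j) :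
    GT Ψ (T ∘ Equiv.swap i j) (v ∘ Equiv.swap i j) (x ∘ Equiv.swap i j) (y ∘ Equiv.swap i j) =
      -GT Ψ T v x y :=
  h.alt i j hij (fun l => (T l, x l * v l ^ 2, y l * v l ^ 3))
    (fun l => ⟨hV.nice l, onE_tw I (hV.nice l) (hV.root l) (hV.curve l)⟩)

/-- The functional is symmetric in the `T i`, for fixed `x i`, `y i`. -/
theorem gt_sym (I : Twi D) (h : OJ D n Ψ) (hV : I.Valid T v x y) (σ : Equiv.Perm (Fin n)) :
    GT Ψ (T ∘ σ) (v ∘ σ) x y = GT Ψ T v x y := by
  have hswap : ∀ (T : Fin n → Place k L) (v : Fin n → k), I.Valid T v x y →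
      ∀ i j : Fin n, i ≠ j →
      GT Ψ (T ∘ Equiv.swap i j) (v ∘ Equiv.swap i j) x y = GT Ψ T v x y := by
    intro T v hV i j hij
    have h1 := gt_alt I h hV hij
    have hV' : I.Valid (T ∘ Equiv.swap i j) (v ∘ Equiv.swap i j) x y :=
      ⟨fun l => hV.nice _, fun l => hV.root _, hV.curve⟩
    have h2 := gt_lines I h hV' hij
    rw [h1] at h2
    exact (neg_inj.mp h2).symm
  have key : ∀ σ : Equiv.Perm (Fin n), ∀ (T : Fin n → Place k L) (v : Fin n → k),
      I.Valid T v x y → GT Ψ (T ∘ σ) (v ∘ σ) x y = GT Ψ T v x y := by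
    intro σ
    induction σ using Equiv.Perm.swap_induction_on with
    | one => intro T v _; rfl
    | swap_mul f i j hij ih =>
      intro T v hV
      have h1 := ih (T ∘ Equiv.swap i j) (v ∘ Equiv.swap i j)
        ⟨fun l => hV.nice _, fun l => hV.root _, fun l => hV.curve l⟩
      rw [← hswap T v hV i j hij, ← h1]
      rfl
  exact key σ T v hV

/-- Moving a root of unity from one variable to another. -/
lemma gt_move (I : Twi D) (h : OJ D n Ψ) (hV : I.Valid T v x y) {g : k} (hg : g ^ I.m = 1)
    {i j : Fin n} :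
    GT Ψ T (update v i (g * v i)) x y = GT Ψ T (update v j (g * v j)) x y := by
  by_cases hij : i = j
  · rw [hij]
  have e1 : GT Ψ T (update v i (g * v i)) x y =
      GT Ψ T v (update x i (g ^ 2 * x i)) (update y i (g ^ 3 * y i)) := by
    unfold GT
    congr 1
    funext l
    by_cases hl : l = i
    · subst hl
      simp only [update_self]
      exact gt_twist _ _ _ _ _
    · simp only [update_of_ne hl]
  have hV1 : I.Valid T v (update x i (g ^ 2 * x i)) (update y i (g ^ 3 * y i)) := by
    refine ⟨hV.nice, hV.root, fun l => ?_⟩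
    by_cases hl : l = i
    · subst hl
      simp only [update_self]
      exact curve_twist I (hV.curve _) hg
    · simp only [update_of_ne hl]
      exact hV.curve l
  have hV2 : I.Valid T (update v j (g * v j)) x y := by
    refine ⟨hV.nice, fun l => ?_, hV.curve⟩
    by_cases hl : l = j
    · subst hl
      simp only [update_self, mul_pow, hg, one_mul]
      exact hV.root l
    · simp only [update_of_ne hl]
      exact hV.root l
  have e2 := gt_lines I h hV1 hij
  have e3 := gt_lines I h hV2 hij
  have e4 : GT Ψ T v ((update x i (g ^ 2 * x i)) ∘ Equiv.swap i j)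
      ((update y i (g ^ 3 * y i)) ∘ Equiv.swap i j) =
      GT Ψ T (update v j (g * v j)) (x ∘ Equiv.swap i j) (y ∘ Equiv.swap i j) := by
    unfold GT
    congr 1
    funext l
    by_cases hl : l = j
    · subst hl
      simp only [comp_apply, Equiv.swap_apply_right, update_self]
      exact (gt_twist _ _ _ _ _).symm
    · have : Equiv.swap i j l ≠ i := by
        intro h0
        apply hl
        have := congrArg (Equiv.swap i j) h0
        rwa [Equiv.swap_apply_self, Equiv.swap_apply_left] at this
      simp only [comp_apply, update_of_ne hl, update_of_ne this]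
  rw [e1, ← neg_inj, ← e2, e4, e3]

/-- The functional depends only on the product of the roots `v i`. -/
theorem gt_prod (I : Twi D) (h : OJ D n Ψ) (hV : I.Valid T v x y) {g : Fin n → k}
    (hg : ∀ i, g i ^ I.m = 1) (hp : ∏ i, g i = 1) :
    GT Ψ T (fun i => g i * v i) x y = GT Ψ T v x y := by
  classical
  have hm0 : I.m ≠ 0 := I.hm0
  rcases n with _ | n
  · unfold GT
    congr 1
    funext i
    exact i.elim0
  let M := rootsOfUnity I.m k
  let F : (Fin (n + 1) → M) → k := fun c => GT Ψ T (fun i => ((c i : kˣ) : k) * v i) x y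
  have hpow : ∀ c : M, ((c : kˣ) : k) ^ I.m = 1 := fun c =>
    (mem_rootsOfUnity' I.m (c : kˣ)).mp c.2
  have hF : ∀ (c : Fin (n + 1) → M) (i j : Fin (n + 1)) (e : M),
      F (c * (Pi.mulSingle i e : Fin (n + 1) → M)) =
        F (c * (Pi.mulSingle j e : Fin (n + 1) → M)) := by
    intro c i j e
    have hV' : I.Valid T (fun i => ((c i : kˣ) : k) * v i) x y :=
      ⟨hV.nice, fun l => by rw [mul_pow, hpow, one_mul]; exact hV.root l, hV.curve⟩
    have h1 := gt_move I h hV' (hpow e) (i := i) (j := j)
    have h2 : ∀ i, (fun l => (((c * (Pi.mulSingle i e : Fin (n + 1) → M)) l : kˣ) : k) * v l) =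
        update (fun i => ((c i : kˣ) : k) * v i) i
          (((e : kˣ) : k) * (((c i : kˣ) : k) * v i)) := by
      intro i
      funext l
      by_cases hl : l = i
      · subst hl
        simp only [Pi.mul_apply, Pi.mulSingle_eq_same, update_self]
        push_cast
        ring
      · simp only [Pi.mul_apply, Pi.mulSingle_eq_of_ne hl, update_of_ne hl, mul_one]
    simp only [F]
    rw [h2 i, h2 j]
    exact h1
  have hg0 : ∀ i, g i ≠ 0 := by
    intro i h0
    have := hg i
    rw [h0, zero_pow hm0] at this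
    exact zero_ne_one this
  let c : Fin (n + 1) → M := fun i => ⟨Units.mk0 (g i) (hg0 i),
    (mem_rootsOfUnity' I.m _).mpr (by rw [Units.val_mk0]; exact hg i)⟩
  have hc : ∏ i, c i = 1 := by
    apply Subtype.ext
    apply Units.ext
    rw [Subgroup.val_finsetProd, Units.coe_prod]
    simpa [c] using hp
  have h1 := Pool.Agent.Helper51.EW.eq_of_prod F hF 0 c
  have h2 := Pool.Agent.Helper51.EW.eq_of_prod F hF 0 1
  rw [hc] at h1
  simp only [Pi.one_apply, Finset.prod_const_one] at h2
  rw [← h2] at h1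
  have e1 : F c = GT Ψ T (fun i => g i * v i) x y := rfl
  have e2 : F 1 = GT Ψ T v x y := by
    simp only [F, Pi.one_apply]
    congr 1
    funext i
    simp
  rw [← e1, ← e2, h1]

end Pool.Agent.Helper51.IS
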