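import Mathlib
import Pool.Agent.Helper51.IS.Sym
import Pool.Agent.Helper51.IS.Nrm
import Pool.Agent.Helper51.IS.Sec
import Pool.Agent.Helper51.IS.Fld
import Pool.Agent.Helper51.EW.Path

/-!
# Block IS-CORE: the path along a pencil

Template: `EW.core_generic` in `Helper51/EW/Path.lean` (lines 95-239). Take `exists_zeros`, `exists_sec`, `exists_fld`
(`v₀ = v`; `v i ≠ 0` since `ord (T i) f = 0`). The points over `K`:
`{p := (t i).p, x := P i (s) / h i ^ 2 * v' i ^ 2 / (t i).l ^ 2, y := Q i (s) / h i ^ 3 * v' i ^ 3 / (t i).l ^ 3}`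
(`nc` by `Pen.nc`; on the curve: `Q ^ 2 = P ^ 3 + a H ^ e4 P + b H ^ e6`, `h ^ m = H`, `v' ^ m = l ^ m ev f`, and
`ev (-3 al) = a (ev f) ^ e4` by `I.hal` (`BP.ev` is multiplicative on functions which are regular at nice places /
for an embedding; use `I.hal`, `map_mul`, and `isRes_rs` for constant places), so
`a (h ^ m) ^ e4 = a h ^ 4` etc. as in the template). Let `F` be the harmonic function given by `h.harm`.
* At a place `ν` with `IsRes ν w w₀`: `s` has the value `ρ (w₀) = 0`, so by `Pen.zero` there is `σ` with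
  `BRes ν (t i) (T (σ i))`; `v' i` has a value `vb i`, `vb i ^ m = f (T (σ i))` (`exists_res_of_pow`; `(t i).l` has
  the value `1`; the value of `ev f`: `VB.isRes_ev`), `h i` has a value `hb i`, `hb i ^ m = 1`, and
  `1 * ∏ vb i = ∏ v i * ∏ hb i`. So `F ν = GT Ψ (T ∘ σ) (vb / hb) x y = GT Ψ T v x y` by `gt_prod` and `gt_sym`.
* At a place `ν` where `w` has a pole, `s = ρ (w)` has a pole (`ρ` is not constant), so by `Pen.infty` (`q ≠ 0`) some
  `t i` has the value `e1`, and `KPt.Zero` holds: `F ν = 0`.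
`Harm` for the function `w - w₀`: the sum of `ord * F` over its zeros is `c * (positive integer)`, over its
poles `0`. So `c = 0`.
-/

set_option linter.unusedSectionVars false

namespace Pool.Agent.Helper51.IS

open VC VF Function Polynomial
open Pool.Agent.Helper51.VB
open Pool.Agent.Helper51.VN (Harm OnE)

universe u

variable {k L : Type u} [Field k] [IsAlgClosed k] [CharZero k] [Field L] [Algebra k L]
  {D : Ell k L} [D.Pos] {n : ℕ} {Ψ : (Fin n → Place k L × k × k) → k} {T : Fin n → Place k L}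
  {v x y : Fin n → k}

section ev

variable {K : Type u} [Field K] [Algebra k K]

private lemma f_mem (I : Twi D) {P : Place k L} (hP : D.Nice P) : I.f ∈ P.ring :=
  (ord_nonneg_iff D.hL P I.hf0).mp (I.ord_nice hP).ge

private lemma ev_al (I : Twi D) {p : BP k L K} (hp : p.Nc D) :
    -3 * p.ev D.al = algebraMap k K I.a * p.ev I.f ^ I.e4 := by
  cases p with
  | cst P =>
    have hP := hp P rfl
    have h3 : IsRes P (-3 : L) (-3 : k) := by
      have := isRes_const (v := P) (-3 : k)
      rwa [map_neg, map_ofNat] at this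
    have h1 := h3.mul (isRes_rs D.hL hP.1)
    rw [I.hal] at h1
    have h2 := (isRes_const (v := P) I.a).mul ((isRes_rs D.hL (f_mem I hP)).pow I.e4)
    have h4 := congrArg (algebraMap k K) (h1.unique h2)
    simp only [map_mul, map_neg, map_pow, map_ofNat] at h4
    exact h4
  | emb ι =>
    have h4 := congrArg ι I.hal
    simp only [map_mul, map_neg, map_pow, map_ofNat, AlgHom.commutes] at h4
    exact h4

private lemma ev_be (I : Twi D) {p : BP k L K} (hp : p.Nc D) :
    -2 * p.ev D.be = algebraMap k K I.b * p.ev I.f ^ I.e6 := by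
  cases p with
  | cst P =>
    have hP := hp P rfl
    have h3 : IsRes P (-2 : L) (-2 : k) := by
      have := isRes_const (v := P) (-2 : k)
      rwa [map_neg, map_ofNat] at this
    have h1 := h3.mul (isRes_rs D.hL hP.2.1)
    rw [I.hbe] at h1
    have h2 := (isRes_const (v := P) I.b).mul ((isRes_rs D.hL (f_mem I hP)).pow I.e6)
    have h4 := congrArg (algebraMap k K) (h1.unique h2)
    simp only [map_mul, map_neg, map_pow, map_ofNat] at h4
    exact h4
  | emb ι =>
    have h4 := congrArg ι I.hbe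
    simp only [map_mul, map_neg, map_pow, map_ofNat, AlgHom.commutes] at h4
    exact h4

/-- If a nonconstant polynomial in `w` is regular, then `w` is regular. -/
private lemma mem_of_aeval {ρ : k[X]} (hρ : ρ.natDegree ≠ 0) {w : K} {ν : Place k K}
    (h : aeval w ρ ∈ ν.ring) : w ∈ ν.ring := by
  have hρ0 : ρ ≠ 0 := by
    rintro rfl
    exact hρ natDegree_zero
  have hl : ρ.leadingCoeff ≠ 0 := leadingCoeff_ne_zero.mpr hρ0
  let φ : k →+* ν.ring := (algebraMap k K).codRestrict ν.ring.toSubring ν.algebraMap_mem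
  have hφ : (algebraMap ν.ring K).comp φ = algebraMap k K := by
    ext x
    rfl
  -- the monic polynomial `ρ / lead - C (s / lead)`
  let ρ' : k[X] := C ρ.leadingCoeff⁻¹ * ρ
  have hmon : ρ'.Monic := by
    simp only [ρ']
    rw [mul_comm]
    exact monic_mul_leadingCoeff_inv hρ0
  have hdeg : ρ'.natDegree = ρ.natDegree := natDegree_C_mul (inv_ne_zero hl)
  have hs' : aeval w ρ' ∈ ν.ring := by
    simp only [ρ']
    rw [map_mul, aeval_C]
    exact ν.ring.mul_mem _ _ (ν.algebraMap_mem _) h
  let G : ν.ring[X] := ρ'.map φ - C ⟨aeval w ρ', hs'⟩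
  have hG : G.Monic := by
    apply Monic.sub_of_left (hmon.map φ)
    rw [degree_map, degree_eq_natDegree hmon.ne_zero, hdeg]
    refine lt_of_le_of_lt degree_C_le ?_
    exact_mod_cast Nat.pos_of_ne_zero hρ
  have hint : IsIntegral ν.ring w := by
    refine ⟨G, hG, ?_⟩
    rw [← eval_map]
    simp only [G]
    rw [Polynomial.map_sub, Polynomial.map_map, hφ, map_C, eval_sub, eval_C, eval_map_algebraMap]
    exact sub_self _
  obtain ⟨y, hy⟩ := IsIntegrallyClosed.isIntegral_iff.mp hint
  rw [← hy]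
  exact y.2

end ev

theorem gt_core (I : Twi D) {g : ℕ} (hg : IsGenus k L g) (hn : D.N + g ≤ n) (h : OJ D n Ψ)
    (hV : I.Valid T v x y) (hinj : Injective T) (hy : ∀ i, y i ≠ 0) : GT Ψ T v x y = 0 := by
  classical
  have hN1 := D.hN
  have hn0 : n ≠ 0 := by omega
  have hm0 := I.hm0
  have hfT : ∀ i, rs (T i) I.f ≠ 0 := by
    intro i h0
    have h1 := isRes_rs D.hL (f_mem I (hV.nice i))
    rw [h0, isRes_zero_iff] at h1
    have h2 := (ord_pos_iff D.hL (T i) I.hf0).mpr h1
    rw [I.ord_nice (hV.nice i)] at h2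
    exact lt_irrefl _ h2
  have hv0 : ∀ i, v i ≠ 0 := by
    intro i hi
    have := hV.root i
    rw [hi, zero_pow hm0] at this
    exact hfT i this.symm
  have hz0 : ∏ i, v i ≠ 0 := Finset.prod_ne_zero_iff.mpr fun i _ => hv0 i
  obtain ⟨d, r, hd, hr, hnorm⟩ := exists_zeros I
  obtain ⟨q, κ, H, P, Q, hq0, hq, h0, hcur, hH⟩ :=
    exists_sec I hg hn hV.nice hinj hV.curve hy r hd hr
  obtain ⟨K, i1, i2, w, s, t, v', h', ρ, ω, w₀, hK, hw, hs, hpen, hρs, hρ0, hω0, hρd, hv', hh', hh0,
    hprod⟩ := exists_fld I hn0 hV.nice hinj hq κ H (fun i => (h0 i).1) r hH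
      (fun K _ _ s t hp => hnorm n T hV.nice hinj q hq K s t hp) v hV.root hv0
  have hchK : CharZero K := charZero_of_injective_algebraMap (algebraMap k K).injective
  -- the curve
  have hcK : ∀ i, (aeval s (Q i) / h' i ^ 3) ^ 2 = (aeval s (P i) / h' i ^ 2) ^ 3 +
      algebraMap k K I.a * (aeval s (P i) / h' i ^ 2) + algebraMap k K I.b := by
    intro i
    have e1 := congrArg (aeval s) (hcur i)
    simp only [map_add, map_mul, map_pow, aeval_C] at e1
    rw [← hh' i] at e1
    have e4 : algebraMap k K I.a * (h' i ^ I.m) ^ I.e4 = algebraMap k K I.a * h' i ^ 4 := by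
      rcases I.h4 with h4 | h4
      · rw [h4, map_zero, zero_mul, zero_mul]
      · rw [← pow_mul, h4]
    have e6 : algebraMap k K I.b * (h' i ^ I.m) ^ I.e6 = algebraMap k K I.b * h' i ^ 6 := by
      rcases I.h6 with h6 | h6
      · rw [h6, map_zero, zero_mul, zero_mul]
      · rw [← pow_mul, h6]
    rw [e4, e6] at e1
    have := hh0 i
    field_simp
    linear_combination e1
  have heq : ∀ i, OnE ((t i).p.ev D.al) ((t i).p.ev D.be)
      (aeval s (P i) / h' i ^ 2 * v' i ^ 2 / (t i).l ^ 2)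
      (aeval s (Q i) / h' i ^ 3 * v' i ^ 3 / (t i).l ^ 3) := by
    intro i
    have hl := (t i).hl
    have ea := ev_al I (hpen.nc i)
    have eb := ev_be I (hpen.nc i)
    have e4 : algebraMap k K I.a * v' i ^ 4 = (t i).l ^ 4 * (-3 * (t i).p.ev D.al) := by
      rw [ea]
      rcases I.h4 with h4 | h4
      · rw [h4, map_zero, zero_mul, zero_mul, mul_zero]
      · rw [← h4, pow_mul, hv' i, mul_pow, pow_mul]
        ring
    have e6 : algebraMap k K I.b * v' i ^ 6 = (t i).l ^ 6 * (-2 * (t i).p.ev D.be) := by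
      rw [eb]
      rcases I.h6 with h6 | h6
      · rw [h6, map_zero, zero_mul, zero_mul, mul_zero]
      · rw [← h6, pow_mul, hv' i, mul_pow, pow_mul]
        ring
    have e0 := hcK i
    generalize aeval s (P i) / h' i ^ 2 = X at e0 ⊢
    generalize aeval s (Q i) / h' i ^ 3 = Y at e0 ⊢
    unfold OnE
    field_simp
    linear_combination v' i ^ 6 * e0 + X * v' i ^ 2 * e4 + e6
  let c : Fin n → KPt D K := fun i =>
    { p := (t i).p
      x := aeval s (P i) / h' i ^ 2 * v' i ^ 2 / (t i).l ^ 2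
      y := aeval s (Q i) / h' i ^ 3 * v' i ^ 3 / (t i).l ^ 3
      nc := hpen.nc i
      hE := heq i }
  obtain ⟨F, hF, hFv, hFz⟩ := h.harm K hK c
  -- the value at the zeros of `w - w₀`
  have hzero : ∀ ν : Place k K, IsRes ν w w₀ → F ν = GT Ψ T v x y := by
    intro ν hν
    have hs0 : IsRes ν s 0 := by
      have h1 := hν.poly (p := ρ)
      rwa [hρs, hρ0] at h1
    obtain ⟨σ, hσ⟩ := hpen.zero ν hs0
    have hvb : ∀ i, ∃ e, IsRes ν (v' i) e ∧ e ^ I.m = rs (T (σ i)) I.f := by
      intro i
      apply exists_res_of_pow hK hm0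
      rw [hv' i]
      have h1 := ((hσ i).2.pow I.m).mul (isRes_ev D.hL (hσ i).1 (f_mem I (hV.nice (σ i))))
      rwa [one_pow, one_mul] at h1
    have hhb : ∀ i, ∃ e, IsRes ν (h' i) e ∧ e ^ I.m = 1 := by
      intro i
      apply exists_res_of_pow hK hm0
      rw [hh' i, ← (h0 i).1]
      exact hs0.poly
    choose vb hvb1 hvb2 using hvb
    choose hb hhb1 hhb2 using hhb
    have hhb0 : ∀ i, hb i ≠ 0 := by
      intro i hi
      have := hhb2 i
      rw [hi, zero_pow hm0] at this
      exact zero_ne_one this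
    have hval : F ν = Ψ (fun i => (T (σ i), x i * (vb i / hb i) ^ 2, y i * (vb i / hb i) ^ 3)) := by
      apply hFv ν
      intro i
      have hP : IsRes ν (aeval s (P i)) (x i) := by
        rw [← (h0 i).2.1]
        exact hs0.poly
      have hQ : IsRes ν (aeval s (Q i)) (y i) := by
        rw [← (h0 i).2.2]
        exact hs0.poly
      refine ⟨hV.nice _, (hσ i).1, ?_, ?_⟩
      · have h1 := EW.IsRes.div' hK ((EW.IsRes.div' hK hP ((hhb1 i).pow 2)
          (pow_ne_zero 2 (hhb0 i))).mul ((hvb1 i).pow 2)) ((hσ i).2.pow 2) (by simp)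
        have e1 : x i / hb i ^ 2 * vb i ^ 2 / 1 ^ 2 = x i * (vb i / hb i) ^ 2 := by
          rw [div_pow]; ring
        rw [e1] at h1
        exact h1
      · have h1 := EW.IsRes.div' hK ((EW.IsRes.div' hK hQ ((hhb1 i).pow 3)
          (pow_ne_zero 3 (hhb0 i))).mul ((hvb1 i).pow 3)) ((hσ i).2.pow 3) (by simp)
        have e1 : y i / hb i ^ 3 * vb i ^ 3 / 1 ^ 3 = y i * (vb i / hb i) ^ 3 := by
          rw [div_pow]; ring
        rw [e1] at h1
        exact h1
    have hprodb : ∏ i, vb i = (∏ i, v i) * ∏ i, hb i := by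
      have e1 : IsRes ν (aeval w ω * ∏ i, v' i) (1 * ∏ i, vb i) := by
        refine IsRes.mul ?_ (EW.IsRes.prod' _ fun i _ => hvb1 i)
        rw [← hω0]
        exact hν.poly
      have e2 : IsRes ν (algebraMap k K (∏ i, v i) * ∏ i, h' i) ((∏ i, v i) * ∏ i, hb i) :=
        (isRes_const _).mul (EW.IsRes.prod' _ fun i _ => hhb1 i)
      rw [hprod] at e1
      have := e1.unique e2
      rwa [one_mul] at this
    have hV' : I.Valid (T ∘ σ) (v ∘ σ) x y :=
      ⟨fun i => hV.nice (σ i), fun i => hV.root (σ i), hV.curve⟩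
    have e1 := gt_prod (g := fun i => vb i / hb i / v (σ i)) I h hV' (by
      intro i
      rw [div_pow, div_pow, hvb2, hhb2, hV.root, div_one, div_self (hfT (σ i))]) (by
      rw [Finset.prod_div_distrib, Finset.prod_div_distrib, hprodb, Equiv.prod_comp σ v]
      have hb0 : ∏ i, hb i ≠ 0 := Finset.prod_ne_zero_iff.mpr fun i _ => hhb0 i
      rw [mul_div_cancel_right₀ _ hb0, div_self hz0])
    rw [gt_sym I h hV σ] at e1
    rw [hval, ← e1]
    unfold GT
    congr 1
    funext i
    simp only [comp_apply]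
    rw [div_mul_cancel₀ _ (hv0 (σ i))]
  -- the value at the poles of `w`
  have hpole : ∀ ν : Place k K, w ∉ ν.ring → F ν = 0 := by
    intro ν hν
    have hsν : s ∉ ν.ring := by
      intro h1
      rw [← hρs] at h1
      exact hν (mem_of_aeval hρd h1)
    obtain ⟨i, hi⟩ := hpen.infty ν hsν hq0
    exact hFz ν i (Or.inl ⟨D.hN, hi⟩)
  -- the divisor of `w - w₀`
  have htr : Transcendental k (w - algebraMap k K w₀) := by
    intro h6
    apply hw
    have := h6.add (isAlgebraic_algebraMap (A := K) w₀)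
    rwa [sub_add_cancel] at this
  have hf0 : w - algebraMap k K w₀ ≠ 0 := by
    intro h1
    rw [h1] at htr
    exact htr isAlgebraic_zero
  obtain ⟨ν₀, hν₀⟩ := exists_place hK htr
  have e1 := hF _ hf0
  have e2 : ∀ ν ∈ (finite_support_ord hK hf0).toFinset,
      (ord ν.ring (w - algebraMap k K w₀) : k) * F ν =
      ((max (ord ν.ring (w - algebraMap k K w₀)) 0 : ℤ) : k) * GT Ψ T v x y := by
    intro ν _
    rcases lt_trichotomy (ord ν.ring (w - algebraMap k K w₀)) 0 with hlt | heq' | hgt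
    · have h1 : w ∉ ν.ring := by
        intro h1
        have h2 := (ord_nonneg_iff hK ν hf0).mpr (sub_mem h1 (ν.algebraMap_mem _))
        omega
      rw [hpole ν h1, mul_zero, max_eq_right hlt.le, Int.cast_zero, zero_mul]
    · rw [heq']
      simp
    · have h1 : IsRes ν w w₀ := (ord_pos_iff hK ν hf0).mp hgt
      rw [hzero ν h1, max_eq_left hgt.le]
  rw [Finset.sum_congr rfl e2, ← Finset.sum_mul, ← Int.cast_sum] at e1
  rcases mul_eq_zero.1 e1 with e4 | e4
  · exfalso
    rw [Int.cast_eq_zero] at e4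
    have hpos := (ord_pos_iff hK ν₀ hf0).mpr hν₀
    have h5 : 0 < ∑ ν ∈ (finite_support_ord hK hf0).toFinset,
        max (ord ν.ring (w - algebraMap k K w₀)) 0 := by
      refine Finset.sum_pos' (fun w _ => le_max_right _ _) ⟨ν₀, ?_, ?_⟩
      · rw [Set.Finite.mem_toFinset]
        exact hpos.ne'
      · exact lt_max_of_lt_left hpos
    omega
  · exact e4

end Pool.Agent.Helper51.IS
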