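import Mathlib
import Pool.Agent.Helper51.IS.Core
import Pool.Agent.Helper51.VB.Mv3

/-!
# Block IS-MV: all points

`gen_zero`: for nice places `P i`, pairwise different, and arbitrary points of the fibres: choose
`v i ^ m = rs (P i) f` (nonzero: `I.ord_nice`), `X i = x i / v i ^ 2`, `Y i = y i / v i ^ 3`, a point of the constant
curve (computation as in `onE_tw`); if some `Y i = 0` use `gt_zero`, otherwise `gt_core`.

`iso_zero`: the same induction as in `VB/Mv3.lean` (`oj_zero`), with the condition of being general replaced by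
the condition that the places `(p i).1`, `i ∈ S`, are pairwise different: one variable moves along the base curve
itself, for almost all places the moved place is nice and different from the others.
-/

set_option linter.unusedSectionVars false

namespace Pool.Agent.Helper51.IS

open VC VF Function Polynomial
open Pool.Agent.Helper51.VB
open Pool.Agent.Helper51.VN (Harm OnE)

universe u

variable {k L : Type u} [Field k] [IsAlgClosed k] [CharZero k] [Field L] [Algebra k L]
  {D : Ell k L} [D.Pos] {n : ℕ} {Ψ : (Fin n → Place k L × k × k) → k}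

/-- Elements of order zero have nonzero values. -/
private lemma val_ne37 {L : Type u} [Field L] [Algebra k L] (hL : IsFunctionField k L)
    {Q : Place k L} {x : L} (hx : x ≠ 0) (h : ord Q.ring x = 0) : ∃ c : k, IsRes Q x c ∧ c ≠ 0 := by
  have h1 : x ∈ Q.ring := (ord_nonneg_iff hL Q hx).mp h.ge
  obtain ⟨c, hc⟩ := VF.exists_res hL h1
  refine ⟨c, hc, ?_⟩
  rintro rfl
  have := (ord_pos_iff hL Q hx).mpr (isRes_zero_iff.mp hc)
  omega

private lemma coef37 (I : Twi D) {P : Place k L} (hP : D.Nice P) {v : k}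
    (hv : v ^ I.m = rs P I.f) :
    -3 * D.a₀ P = I.a * v ^ 4 ∧ -2 * D.b₀ P = I.b * v ^ 6 := by
  have hf : IsRes P I.f (v ^ I.m) := by
    have h1 : I.f ∈ P.ring := (ord_nonneg_iff D.hL P I.hf0).mp (I.ord_nice hP).ge
    rw [hv]
    exact isRes_rs D.hL h1
  have ha : IsRes P D.al (D.a₀ P) := isRes_rs D.hL hP.1
  have hb : IsRes P D.be (D.b₀ P) := isRes_rs D.hL hP.2.1
  have e3 : IsRes P (-3 : L) (-3) := by
    have := isRes_const (v := P) (-3 : k)
    rwa [map_neg, map_ofNat] at this
  have e2 : IsRes P (-2 : L) (-2) := by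
    have := isRes_const (v := P) (-2 : k)
    rwa [map_neg, map_ofNat] at this
  constructor
  · have h1 := e3.mul ha
    rw [I.hal] at h1
    have h2 := (isRes_const (v := P) I.a).mul (hf.pow I.e4)
    rw [h1.unique h2, ← pow_mul]
    rcases I.h4 with h | h
    · rw [h, zero_mul, zero_mul]
    · rw [h]
  · have h1 := e2.mul hb
    rw [I.hbe] at h1
    have h2 := (isRes_const (v := P) I.b).mul (hf.pow I.e6)
    rw [h1.unique h2, ← pow_mul]
    rcases I.h6 with h | h
    · rw [h, zero_mul, zero_mul]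
    · rw [h]

theorem gen_zero (I : Twi D) {g : ℕ} (hg : IsGenus k L g) (hn : D.N + g ≤ n) (h : OJ D n Ψ)
    (p : Fin n → Place k L × k × k) (hinj : Injective fun i => (p i).1)
    (hp : ∀ i, D.Nice (p i).1 ∧ OnE (D.a₀ (p i).1) (D.b₀ (p i).1) (p i).2.1 (p i).2.2) :
    Ψ p = 0 := by
  have hv : ∀ i, ∃ v : k, v ^ I.m = rs (p i).1 I.f := fun i =>
    IsAlgClosed.exists_pow_nat_eq _ (Nat.pos_of_ne_zero I.hm0)
  choose v hv using hv
  have hv0 : ∀ i, v i ≠ 0 := by
    intro i h0
    have h1 := hv i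
    rw [h0, zero_pow I.hm0] at h1
    obtain ⟨c, hc, hc0⟩ := val_ne37 D.hL I.hf0 (I.ord_nice (hp i).1)
    apply hc0
    have h2 : I.f ∈ ((p i).1).ring :=
      (ord_nonneg_iff D.hL (p i).1 I.hf0).mp (I.ord_nice (hp i).1).ge
    rw [hc.unique (isRes_rs D.hL h2), h1]
  obtain ⟨x, hx⟩ : ∃ x : Fin n → k, ∀ i, x i * v i ^ 2 = (p i).2.1 :=
    ⟨fun i => (p i).2.1 / v i ^ 2, fun i => div_mul_cancel₀ _ (pow_ne_zero 2 (hv0 i))⟩
  obtain ⟨y, hy⟩ : ∃ y : Fin n → k, ∀ i, y i * v i ^ 3 = (p i).2.2 :=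
    ⟨fun i => (p i).2.2 / v i ^ 3, fun i => div_mul_cancel₀ _ (pow_ne_zero 3 (hv0 i))⟩
  have hV : I.Valid (fun i => (p i).1) v x y := by
    refine ⟨fun i => (hp i).1, hv, fun i => ?_⟩
    have h1 : (p i).2.2 ^ 2 = (p i).2.1 ^ 3 - 3 * D.a₀ (p i).1 * (p i).2.1 -
      2 * D.b₀ (p i).1 := (hp i).2
    obtain ⟨h2, h3⟩ := coef37 I (hp i).1 (hv i)
    rw [← hx i, ← hy i] at h1
    have h4 : (y i ^ 2 - (x i ^ 3 + I.a * x i + I.b)) * v i ^ 6 = 0 := by
      linear_combination h1 + (x i * v i ^ 2) * h2 + h3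
    exact sub_eq_zero.mp ((mul_eq_zero.mp h4).resolve_right (pow_ne_zero 6 (hv0 i)))
  have e : Ψ p = GT Ψ (fun i => (p i).1) v x y := by
    unfold GT
    congr 1
    funext i
    rw [hx i, hy i]
  rw [e]
  by_cases h0 : ∃ i, y i = 0
  · obtain ⟨i, hi⟩ := h0
    exact gt_zero I h hV hi
  · push Not at h0
    exact gt_core I hg hn h hV hinj h0

/-- A harmonic function which vanishes at almost all places vanishes. -/
private lemma harm_app37 {K : Type u} [Field K] [Algebra k K] {hK : IsFunctionField k K}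
    {F : Place k K → k} (h : Harm hK F) {T : Set (Place k K)} (hT : T.Finite)
    (h0 : ∀ v, v ∉ T → F v = 0) (v : Place k K) : F v = 0 := by
  classical
  by_cases hv : v ∈ T
  swap
  · exact h0 v hv
  obtain ⟨f, hf0, hf1, hf2⟩ := Helper83.KV.exists_zero_at hK (hT.toFinset.erase v) v
    (Finset.notMem_erase v _)
  have h1 := h f hf0
  have h2 : ∀ w ∈ (finite_support_ord hK hf0).toFinset, w ≠ v →
      (ord w.ring f : k) * F w = 0 := by
    intro w _ hw
    by_cases hwT : w ∈ T
    · rw [hf2 w (Finset.mem_erase.mpr ⟨hw, hT.mem_toFinset.mpr hwT⟩), Int.cast_zero, zero_mul]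
    · rw [h0 w hwT, mul_zero]
  rw [Finset.sum_eq_single v h2 (fun hn => by
    exfalso
    apply hn
    rw [Set.Finite.mem_toFinset, Set.mem_ofPred_eq]
    exact hf1)] at h1
  exact (mul_eq_zero.mp h1).resolve_left (Int.cast_ne_zero.mpr hf1)

/-- Values of elements of `K` at the places of `L`. -/
private lemma isRes_iff37 {K L : Type u} [Field K] [Algebra k K] [Field L] [Algebra k L]
    [Algebra K L] [IsScalarTower k K L] (hK : IsFunctionField k K) (hL : IsFunctionField k L)
    (Q : Place k L) (x : K) (c : k) :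
    IsRes Q (algebraMap K L x) c ↔ IsRes (VQ.res hK hL Q) x c := by
  have e : algebraMap K L x - algebraMap k L c = algebraMap K L (x - algebraMap k K c) := by
    rw [map_sub, ← IsScalarTower.algebraMap_apply k K L]
  unfold IsRes
  rw [e]
  exact (mem_nonunits_comap (IsScalarTower.toAlgHom k K L).toRingHom Q.ring _).symm

/-- A function is regular at almost all places. -/
private lemma fin37 (hL : IsFunctionField k L) (f : L) :
    {P : Place k L | f ∉ P.ring}.Finite := by
  by_cases hf : f = 0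
  · refine Set.finite_empty.subset fun P hP => ?_
    exact hP (by rw [hf]; exact P.ring.zero_mem)
  · refine (finite_support_ord hL hf).subset fun P hP => ?_
    rw [Set.mem_ofPred_eq]
    intro h0
    exact hP ((ord_nonneg_iff hL P hf).mp h0.ge)

/-- Admissible points. -/
private def Adm37 (D : Ell k L) {n : ℕ} (p : Fin n → Place k L × k × k) : Prop :=
  ∀ i, D.Nice (p i).1 ∧ OnE (D.a₀ (p i).1) (D.b₀ (p i).1) (p i).2.1 (p i).2.2

/-- The point over a moving place. -/
private lemma step37 (h : OJ D n Ψ) (S : Finset (Fin n)) (m : Fin n)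
    (hS : ∀ p, Adm37 D p → Set.InjOn (fun i => (p i).1) (insert m S : Finset (Fin n)) → Ψ p = 0)
    (p : Fin n → Place k L × k × k) (hp : Adm37 D p)
    (hg : Set.InjOn (fun i => (p i).1) (S : Set (Fin n))) : Ψ p = 0 := by
  classical
  obtain ⟨x₀, hx₀⟩ : ∃ x₀, x₀ = (p m).2.1 := ⟨_, rfl⟩
  obtain ⟨y₀, hy₀⟩ : ∃ y₀, y₀ = (p m).2.2 := ⟨_, rfl⟩
  obtain ⟨P₀, hP₀⟩ : ∃ P₀, P₀ = (p m).1 := ⟨_, rfl⟩
  obtain ⟨K, _, _, _, _, yy, hK, hyy⟩ := VF.exists_roots D.hL (m := 2) (by norm_num)
    (fun _ : Fin 1 => algebraMap k L x₀ ^ 3 - 3 * D.al * algebraMap k L x₀ - 2 * D.be)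
  obtain ⟨w₀, hw₀⟩ := VP.exists_res D.hL hK P₀
  -- the value of `y ^ 2` at a place
  have hsq : ∀ w : Place k K, D.Nice (VQ.res D.hL hK w) → ∀ y : K,
      y ^ 2 = algebraMap L K (algebraMap k L x₀ ^ 3 - 3 * D.al * algebraMap k L x₀ -
        2 * D.be) →
      IsRes w (y ^ 2) (x₀ ^ 3 - 3 * D.a₀ (VQ.res D.hL hK w) * x₀ -
        2 * D.b₀ (VQ.res D.hL hK w)) := by
    intro w hw y hy
    rw [hy]
    refine (isRes_iff37 D.hL hK w _ _).mpr ?_
    have e3 : IsRes (VQ.res D.hL hK w) (3 : L) 3 := by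
      have := isRes_const (v := VQ.res D.hL hK w) (3 : k)
      rwa [map_ofNat] at this
    have e2 : IsRes (VQ.res D.hL hK w) (2 : L) 2 := by
      have := isRes_const (v := VQ.res D.hL hK w) (2 : k)
      rwa [map_ofNat] at this
    exact (((isRes_const x₀).pow 3).sub ((e3.mul (isRes_rs D.hL hw.1)).mul (isRes_const x₀))).sub
      (e2.mul (isRes_rs D.hL hw.2.1))
  have hpm := hp m
  rw [← hP₀, ← hx₀, ← hy₀] at hpm
  have hE0 : y₀ ^ 2 = x₀ ^ 3 - 3 * D.a₀ P₀ * x₀ - 2 * D.b₀ P₀ := hpm.2
  obtain ⟨y, hy, hyv⟩ : ∃ y : K, y ^ 2 = algebraMap L K (algebraMap k L x₀ ^ 3 -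
      3 * D.al * algebraMap k L x₀ - 2 * D.be) ∧ IsRes w₀ y y₀ := by
    have h1 := hsq w₀ (by rw [hw₀]; exact hpm.1) (yy 0) (hyy 0)
    rw [hw₀, ← hE0] at h1
    obtain ⟨e, he, he2⟩ := exists_res_of_pow hK two_ne_zero h1
    rcases sq_eq_sq_iff_eq_or_eq_neg.mp he2 with h2 | h2
    · exact ⟨yy 0, hyy 0, by rw [← h2]; exact he⟩
    · refine ⟨-yy 0, by rw [neg_sq]; exact hyy 0, ?_⟩
      have h3 := (isRes_zero_iff.mpr (by
        rw [ValuationSubring.mem_nonunits_iff, map_zero]
        exact zero_lt_one) : IsRes w₀ (0 : K) 0).sub he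
      rw [zero_sub, zero_sub, h2, neg_neg] at h3
      exact h3
  -- the points
  obtain ⟨cm, hcm⟩ : ∃ cm : KPt D K, cm.p = .emb (IsScalarTower.toAlgHom k L K) ∧
      cm.x = algebraMap k K x₀ ∧ cm.y = y := by
    refine ⟨⟨.emb (IsScalarTower.toAlgHom k L K), algebraMap k K x₀, y, ?_, ?_⟩, rfl, rfl, rfl⟩
    · intro P hP
      cases hP
    · change y ^ 2 = algebraMap k K x₀ ^ 3 - 3 * algebraMap L K D.al * algebraMap k K x₀ -
        2 * algebraMap L K D.be
      rw [hy, map_sub, map_sub, map_pow, map_mul, map_mul, map_mul, map_ofNat, map_ofNat,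
        ← IsScalarTower.algebraMap_apply k L K]
  have hci : ∀ i, ∃ c : KPt D K, c.p = .cst (p i).1 ∧ c.x = algebraMap k K (p i).2.1 ∧
      c.y = algebraMap k K (p i).2.2 := by
    intro i
    refine ⟨⟨.cst (p i).1, algebraMap k K (p i).2.1, algebraMap k K (p i).2.2, ?_, ?_⟩, rfl, rfl,
      rfl⟩
    · intro P hP
      have h1 : (p i).1 = P := by injection hP
      rw [← h1]
      exact (hp i).1
    · have h1 := congrArg (algebraMap k K) (hp i).2
      rw [map_pow, map_sub, map_sub, map_pow, map_mul, map_mul, map_mul, map_ofNat,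
        map_ofNat] at h1
      exact h1
  choose ci hci1 hci2 hci3 using hci
  obtain ⟨F, hF, hFv, -⟩ := h.harm K hK (fun i => if i = m then cm else ci i)
  have hval : ∀ (w : Place k K) (q : Fin n → Place k L × k × k), D.Nice (q m).1 →
      (q m).1 = VQ.res D.hL hK w → (q m).2.1 = x₀ → IsRes w y (q m).2.2 →
      (∀ i, i ≠ m → q i = p i) → F w = Ψ q := by
    intro w q h1 h2 h3 h4 h5
    apply hFv
    intro i
    by_cases him : i = m
    · rw [if_pos him, him]
      refine ⟨h1, ?_, ?_, ?_⟩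
      · rw [hcm.1]
        intro f c hf
        rw [h2] at hf
        exact (isRes_iff37 D.hL hK w f c).mpr hf
      · rw [hcm.2.1, h3]
        exact isRes_const _
      · rw [hcm.2.2]
        exact h4
    · rw [if_neg him, h5 i him]
      refine ⟨(hp i).1, ?_, ?_, ?_⟩
      · rw [hci1]
        exact rfl
      · rw [hci2]
        exact isRes_const _
      · rw [hci3]
        exact isRes_const _
  have hw0 : F w₀ = Ψ p := hval w₀ p (hp m).1 (by rw [hw₀, hP₀]) hx₀.symm
    (by rw [← hy₀]; exact hyv) (fun i _ => rfl)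
  rw [← hw0]
  -- the bad places
  obtain ⟨B, hB⟩ : ∃ B : Set (Place k L), B = {P | D.al ∉ P.ring} ∪
      {P | D.be ∉ P.ring} ∪ {P | ord P.ring (D.be ^ 2 - D.al ^ 3) ≠ 0} ∪
      (D.R : Set (Place k L)) ∪ ⋃ i, {(p i).1} := ⟨_, rfl⟩
  have hBf : B.Finite := by
    rw [hB]
    refine Set.Finite.union (Set.Finite.union (Set.Finite.union (Set.Finite.union ?_ ?_) ?_) ?_)
      (Set.finite_iUnion fun i => ?_)
    · exact fin37 D.hL _
    · exact fin37 D.hL _
    · exact finite_support_ord D.hL D.hD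
    · exact Finset.finite_toSet _
    · exact Set.finite_singleton _
  refine harm_app37 hF (T := {w | VQ.res D.hL hK w ∈ B}) ?_ ?_ w₀
  · have e : {w : Place k K | VQ.res D.hL hK w ∈ B} =
        ⋃ P ∈ B, {w : Place k K | VQ.res D.hL hK w = P} := by
      ext w
      simp
    rw [e]
    exact hBf.biUnion (fun P _ => VP.finite_res D.hL hK P)
  · intro w hw
    have hw' : VQ.res D.hL hK w ∉ B := hw
    rw [hB] at hw'
    simp only [Set.mem_union, Set.mem_iUnion, not_or, not_exists] at hw'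
    obtain ⟨⟨⟨⟨h1, h2⟩, h3⟩, h4⟩, h5⟩ := hw'
    obtain ⟨P, hP⟩ : ∃ P, P = VQ.res D.hL hK w := ⟨_, rfl⟩
    rw [← hP] at h1 h2 h3 h4 h5
    have h1 : D.al ∈ P.ring := not_not.mp h1
    have h2 : D.be ∈ P.ring := not_not.mp h2
    have h3 : ord P.ring (D.be ^ 2 - D.al ^ 3) = 0 := not_not.mp h3
    have hN : D.Nice P := ⟨h1, h2, h3, h4⟩
    have hneq : ∀ i, P ≠ (p i).1 := fun i h0 => h5 i h0
    have h8 := hsq w (by rw [← hP]; exact hN) y hy
    rw [← hP] at h8
    obtain ⟨e, he, he2⟩ := exists_res_of_pow hK two_ne_zero h8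
    obtain ⟨q, hq⟩ : ∃ q : Fin n → Place k L × k × k, q = update p m (P, x₀, e) := ⟨_, rfl⟩
    have hqm : q m = (P, x₀, e) := by rw [hq, update_self]
    have hqi : ∀ i, i ≠ m → q i = p i := fun i hi => by rw [hq, update_of_ne hi]
    rw [hval w q (by rw [hqm]; exact hN) (by rw [hqm, hP]) (by rw [hqm]) (by rw [hqm]; exact he)
      hqi]
    apply hS
    · intro i
      by_cases him : i = m
      · rw [him, hqm]
        exact ⟨hN, he2⟩
      · rw [hqi i him]
        exact hp i
    · intro i hi j hj hij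
      have hij' : (q i).1 = (q j).1 := hij
      rw [Finset.mem_coe, Finset.mem_insert] at hi hj
      by_cases him : i = m
      · by_cases hjm : j = m
        · rw [him, hjm]
        · rw [him, hqm, hqi j hjm] at hij'
          exact absurd hij' (hneq j)
      · by_cases hjm : j = m
        · rw [hjm, hqm, hqi i him] at hij'
          exact absurd hij'.symm (hneq i)
        · rw [hqi i him, hqi j hjm] at hij'
          exact hg (Finset.mem_coe.mpr (hi.resolve_left him))
            (Finset.mem_coe.mpr (hj.resolve_left hjm)) hij'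

/-- The functional vanishes. -/
theorem iso_zero (I : Twi D) {g : ℕ} (hg : IsGenus k L g) (hn : D.N + g ≤ n) (h : OJ D n Ψ)
    (p : Fin n → Place k L × k × k)
    (hp : ∀ i, D.Nice (p i).1 ∧ OnE (D.a₀ (p i).1) (D.b₀ (p i).1) (p i).2.1 (p i).2.2) :
    Ψ p = 0 := by
  classical
  have key : ∀ S : Finset (Fin n), ∀ p : Fin n → Place k L × k × k, Adm37 D p →
      Set.InjOn (fun i => (p i).1) ((Finset.univ \ S : Finset (Fin n)) : Set (Fin n)) →
      Ψ p = 0 := by
    intro S
    induction S using Finset.induction_on with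
    | empty =>
      intro p hp hG
      rw [Finset.sdiff_empty, Finset.coe_univ, Set.injOn_univ] at hG
      exact gen_zero I hg hn h p hG hp
    | insert m S hmS ih =>
      intro p hp hG
      refine step37 h (Finset.univ \ insert m S) m ?_ p hp hG
      intro q hq hGq
      refine ih q hq ?_
      have e : insert m (Finset.univ \ insert m S) = Finset.univ \ S := by
        ext i
        simp only [Finset.mem_insert, Finset.mem_sdiff, Finset.mem_univ, true_and, not_or]
        constructor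
        · rintro (rfl | ⟨_, hi⟩)
          · exact hmS
          · exact hi
        · intro hi
          by_cases him : i = m
          · exact Or.inl him
          · exact Or.inr ⟨him, hi⟩
      rw [← e]
      exact hGq
  refine key Finset.univ p hp ?_
  rw [Finset.sdiff_self, Finset.coe_empty]
  exact Set.injOn_empty _

end Pool.Agent.Helper51.IS
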