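import Mathlib
import Pool.Agent.Helper51.IS.Mv

/-!
# The main theorem of project IS: constant `j`

The `j`-invariant is constant in the form `be ^ 2 = c (be ^ 2 - al ^ 3)`, `c` in `k`; `e1` is a place
at which the discriminant, as a section of `12 E`, has a zero.
-/

set_option linter.unusedSectionVars false

namespace Pool.Agent.Helper51.IS

open VC VF Function Polynomial
open Pool.Agent.Helper51.VB
open Pool.Agent.Helper51.VN (Harm OnE)

universe u

variable {k L : Type u} [Field k] [IsAlgClosed k] [CharZero k] [Field L] [Algebra k L]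

private lemma ord_const_mul {hL : IsFunctionField k L} {P : Place k L} {c : k} (hc : c ≠ 0) {z : L}
    (hz : z ≠ 0) : ord P.ring (algebraMap k L c * z) = ord P.ring z := by
  rw [ord_mul hL P ((_root_.map_ne_zero _).mpr hc) hz, FF.ord_algebraMap hL P hc, zero_add]

theorem exists_twi (D : Ell k L) {c : k}
    (hc : D.be ^ 2 = algebraMap k L c * (D.be ^ 2 - D.al ^ 3))
    (he : 1 ≤ D.N → 0 < ord D.e1.ring (D.be ^ 2 - D.al ^ 3) + 12 * D.E D.e1) :
    Nonempty (Twi D) := by
  have hcL : CharZero L := charZero_of_injective_algebraMap (algebraMap k L).injective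
  have hL := D.hL
  have hD := D.hD
  by_cases hal : D.al = 0
  · -- `j = 0`
    have hbe : D.be ≠ 0 := by
      intro h
      apply hD
      rw [h, hal]
      ring
    refine ⟨{ a := 0, b := -2, hE := by norm_num, m := 6, hm0 := by norm_num, hm := by decide
              e4 := 1, e6 := 1, h4 := Or.inl rfl, h6 := Or.inr rfl, f := D.be, hf0 := hbe
              hal := by rw [hal, map_zero]; ring
              hbe := by rw [map_neg, map_ofNat, pow_one]
              hf := fun P => by exact_mod_cast D.h6 P hbe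
              he := fun hN => ?_ }⟩
    have he := he hN
    rw [hal, zero_pow (by norm_num), sub_zero, FF.ord_pow hL _ hbe] at he
    push_cast at he ⊢
    omega
  by_cases hbe : D.be = 0
  · -- `j = 1728`
    refine ⟨{ a := -3, b := 0, hE := by norm_num, m := 4, hm0 := by norm_num, hm := by decide
              e4 := 1, e6 := 1, h4 := Or.inr rfl, h6 := Or.inl rfl, f := D.al, hf0 := hal
              hal := by rw [map_neg, map_ofNat, pow_one]
              hbe := by rw [hbe, map_zero]; ring
              hf := fun P => by exact_mod_cast D.h4 P hal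
              he := fun hN => ?_ }⟩
    have he := he hN
    have e : D.be ^ 2 - D.al ^ 3 = algebraMap k L (-1) * D.al ^ 3 := by
      rw [hbe, map_neg, map_one]; ring
    rw [e, ord_const_mul (hL := hL) (by norm_num) (pow_ne_zero _ hal), FF.ord_pow hL _ hal] at he
    push_cast at he ⊢
    omega
  -- the general case
  have hc1 : c ≠ 0 := by
    rintro rfl
    rw [map_zero, zero_mul] at hc
    exact hbe (pow_eq_zero_iff two_ne_zero |>.mp hc)
  -- `al ^ 3 = c₁ be ^ 2`
  obtain ⟨c₁, hc₁⟩ : ∃ c₁ : k, c₁ = (c - 1) / c := ⟨_, rfl⟩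
  have hcm : algebraMap k L c ≠ 0 := (_root_.map_ne_zero _).mpr hc1
  have h1 : D.al ^ 3 = algebraMap k L c₁ * D.be ^ 2 := by
    rw [hc₁, map_div₀, map_sub, map_one]
    field_simp
    linear_combination hc
  have hc10 : c₁ ≠ 0 := by
    rintro h0
    rw [h0, map_zero, zero_mul] at h1
    exact hal (pow_eq_zero_iff three_ne_zero |>.mp h1)
  have hc11 : c₁ ≠ 1 := by
    rintro h0
    rw [h0, map_one, one_mul] at h1
    exact hD (by rw [h1]; ring)
  obtain ⟨f, hf⟩ : ∃ f : L, f = D.be / D.al := ⟨_, rfl⟩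
  have hf0 : f ≠ 0 := by
    rw [hf]
    exact div_ne_zero hbe hal
  have e2 : D.al = algebraMap k L c₁ * f ^ 2 := by
    rw [hf, div_pow]
    have : D.al ^ 2 ≠ 0 := pow_ne_zero _ hal
    field_simp
    linear_combination h1
  have e3 : D.be = algebraMap k L c₁ * f ^ 3 := by
    have : D.be = f * D.al := by
      rw [hf, div_mul_cancel₀ _ hal]
    rw [this, e2]
    ring
  refine ⟨{ a := -3 * c₁, b := -2 * c₁, hE := ?_, m := 2, hm0 := by norm_num, hm := by decide
            e4 := 2, e6 := 3, h4 := Or.inr rfl, h6 := Or.inr rfl, f := f, hf0 := hf0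
            hal := ?_, hbe := ?_, hf := ?_, he := fun hN => ?_ }⟩
  · have : 4 * (-3 * c₁) ^ 3 + 27 * (-2 * c₁) ^ 2 = 108 * (c₁ ^ 2 * (1 - c₁)) := by ring
    rw [this]
    exact mul_ne_zero (by norm_num) (mul_ne_zero (pow_ne_zero _ hc10) (sub_ne_zero.mpr hc11.symm))
  · conv_lhs => rw [e2]
    rw [map_mul, map_neg, map_ofNat]
    ring
  · conv_lhs => rw [e3]
    rw [map_mul, map_neg, map_ofNat]
    ring
  · intro P
    have h6 := D.h6 P hbe
    rw [e3, ord_const_mul (hL := hL) hc10 (pow_ne_zero _ hf0), FF.ord_pow hL _ hf0] at h6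
    push_cast at h6 ⊢
    omega
  · have he := he hN
    have e : D.be ^ 2 - D.al ^ 3 = algebraMap k L (c₁ ^ 2 - c₁ ^ 3) * f ^ 6 := by
      conv_lhs => rw [e2, e3]
      rw [map_sub, map_pow, map_pow]
      ring
    have hne : c₁ ^ 2 - c₁ ^ 3 ≠ 0 := by
      have : c₁ ^ 2 - c₁ ^ 3 = c₁ ^ 2 * (1 - c₁) := by ring
      rw [this]
      exact mul_ne_zero (pow_ne_zero _ hc10) (sub_ne_zero.mpr hc11.symm)
    rw [e, ord_const_mul (hL := hL) hne (pow_ne_zero _ hf0), FF.ord_pow hL _ hf0] at he
    push_cast at he ⊢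
    omega

/-- The functionals of class `OJ` vanish, constant `j`. -/
theorem iso_main (D : Ell k L) [D.Pos] {c : k}
    (hc : D.be ^ 2 = algebraMap k L c * (D.be ^ 2 - D.al ^ 3))
    (he : 1 ≤ D.N → 0 < ord D.e1.ring (D.be ^ 2 - D.al ^ 3) + 12 * D.E D.e1) {g : ℕ}
    (hg : IsGenus k L g) {n : ℕ} (hn : D.N + g ≤ n) {Ψ : (Fin n → Place k L × k × k) → k} (h : OJ D n Ψ)
    (p : Fin n → Place k L × k × k)
    (hp : ∀ i, D.Nice (p i).1 ∧ OnE (D.a₀ (p i).1) (D.b₀ (p i).1) (p i).2.1 (p i).2.2) :
    Ψ p = 0 := by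
  obtain ⟨I⟩ := exists_twi D hc he
  exact iso_zero I hg hn h p hp

end Pool.Agent.Helper51.IS
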