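import Mathlib
import Pool.Agent.Helper51.VB.Van
import Pool.Agent.Helper51.IS.Main

/-!
# The vanishing of the functionals for elliptic surfaces over a curve with any `j`-invariant
-/

set_option linter.unusedSectionVars false

namespace Pool.Agent.Helper51.IS

open VC VF Function
open Pool.Agent.Helper51.VB
open Pool.Agent.Helper51.VN (OnE)

universe u

variable {k : Type u} [Field k] [IsAlgClosed k] [CharZero k] {L : Type u} [Field L] [Algebra k L]

/-- If the degree of `E` is positive and `e1` is a zero of the discriminant (as a section of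
`12 E`) then the functionals of class `OJ` in at least `N + g` variables vanish, for any `j`. -/
theorem van_all (D : Ell k L) [D.Pos]
    (he : 0 < ord D.e1.ring (D.be ^ 2 - D.al ^ 3) + 12 * D.E D.e1) {g : ℕ} (hg : IsGenus k L g)
    {n : ℕ} (hn : D.N + g ≤ n) {Ψ : (Fin n → Place k L × k × k) → k} (h : OJ D n Ψ)
    (p : Fin n → Place k L × k × k)
    (hp : ∀ i, D.Nice (p i).1 ∧ OnE (D.a₀ (p i).1) (D.b₀ (p i).1) (p i).2.1 (p i).2.2) :
    Ψ p = 0 := by
  by_cases hj : ∀ c : k, D.be ^ 2 ≠ algebraMap k L c * (D.be ^ 2 - D.al ^ 3)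
  · haveI := gen_of_j D.hN hj
    exact vb_main D hg hn h p hp
  · push Not at hj
    obtain ⟨c, hc⟩ := hj
    exact iso_main D hc (fun _ => he) hg hn h p hp

end Pool.Agent.Helper51.IS
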